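import Pool.Agent.H561.GPD.Num

/-!
# The upper bound for the densities of sets without geometric progressions
-/

set_option autoImplicit false

open Finset

namespace Pool.Agent.H561.GPD

attribute [local irreducible] C

open Pool.Agent.H413R3
open Pool.Agent.H413R3.KG (GPF W P Rough Dens mem_smooth_iff summable_of_smooth P_pos W_smooth)

/-- the primes from 7 to 37 -/
def LH : List ℕ :=
  [7, 11, 13, 17, 19, 23, 29, 31, 37]

/-- the primes from 41 to 499 -/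
def LR : List ℕ :=
  [41, 43, 47, 53, 59, 61, 67, 71, 73, 79, 83, 89, 97, 101, 103, 107, 109, 113, 127, 131,
   137, 139, 149, 151, 157, 163, 167, 173, 179, 181, 191, 193, 197, 199, 211, 223, 227, 229,
   233, 239, 241, 251, 257, 263, 269, 271, 277, 281, 283, 293, 307, 311, 313, 317, 331, 337,
   347, 349, 353, 359, 367, 373, 379, 383, 389, 397, 401, 409, 419, 421, 431, 433, 439, 443,
   449, 457, 461, 463, 467, 479, 487, 491, 499]

lemma QQ_eq : QQ 500 = LH.toFinset ∪ LR.toFinset := by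
  unfold QQ Nat.primesBelow
  decide +kernel

lemma LH_nodup : LH.Nodup := by decide +kernel

lemma LR_nodup : LR.Nodup := by decide +kernel

lemma LHR : Disjoint LH.toFinset LR.toFinset := by decide +kernel

/-- sums over a list, in rational numbers -/
lemma sum_cast (L : List ℕ) (hL : L.Nodup) (f : ℕ → ℚ) (g : ℕ → ℝ)
    (h : ∀ p, ((f p : ℚ) : ℝ) = g p) : (((L.map f).sum : ℚ) : ℝ) = ∑ p ∈ L.toFinset, g p := by
  rw [List.sum_toFinset _ hL]
  clear hL
  induction L with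
  | nil => simp
  | cons a L ih =>
    rw [List.map_cons, List.map_cons, List.sum_cons, List.sum_cons, Rat.cast_add, ← ih, h]

/-- products over a list, in rational numbers -/
lemma prod_cast (L : List ℕ) (hL : L.Nodup) (f : ℕ → ℚ) (g : ℕ → ℝ)
    (h : ∀ p, ((f p : ℚ) : ℝ) = g p) : (((L.map f).prod : ℚ) : ℝ) = ∏ p ∈ L.toFinset, g p := by
  rw [List.prod_toFinset _ hL]
  clear hL
  induction L with
  | nil => simp
  | cons a L ih =>
    rw [List.map_cons, List.map_cons, List.prod_cons, List.prod_cons, Rat.cast_mul, ← ih, h]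

lemma n1 : (LH.map fun p : ℕ => ((p : ℚ)⁻¹) ^ 2).sum + (LR.map fun p : ℕ => ((p : ℚ)⁻¹) ^ 2).sum ≤
    50863081 / 1000000000 := by decide +kernel

lemma n2 : 5116370 / 1000000000 ≤ (LR.map fun p : ℕ => ((p : ℚ)⁻¹) ^ 2 / (1 + (p : ℚ)⁻¹)).sum := by
  decide +kernel

lemma n3 : (LR.map fun p : ℕ => ((p : ℚ)⁻¹) ^ 3 / (1 + (p : ℚ)⁻¹)).sum +
    (LR.map fun p : ℕ => ((p : ℚ)⁻¹) ^ 2 / (1 + (p : ℚ)⁻¹)).sum ^ 2 ≤ 102349 / 1000000000 := by
  decide +kernel

lemma n4 : 43787 / 1000000 ≤ (LH.map fun p : ℕ => (1 - (p : ℚ)⁻¹)).prod *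
    (LR.map fun p : ℕ => (1 - ((p : ℚ)⁻¹) ^ 2)).prod *
    qphi (qval (50863081 / 1000000000) (5116370 / 1000000000) (102349 / 1000000000)) LH 0 0 := by
  decide +kernel

lemma W_split {T S : Set ℕ} {K : ℕ} (hT : T ⊆ S) (hS : S ⊆ Nat.smoothNumbers K) :
    W T + W (S \ T) = W S := by
  unfold W
  rw [← (summable_of_smooth (hT.trans hS)).tsum_add
    (summable_of_smooth (Set.sdiff_subset.trans hS))]
  congr 1
  funext n
  by_cases h1 : n ∈ T
  · rw [Set.indicator_of_mem h1, Set.indicator_of_notMem (fun h => h.2 h1),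
      Set.indicator_of_mem (hT h1), add_zero]
  · by_cases h2 : n ∈ S
    · rw [Set.indicator_of_notMem h1, Set.indicator_of_mem (show n ∈ S \ T from ⟨h2, h1⟩),
        Set.indicator_of_mem h2, zero_add]
    · rw [Set.indicator_of_notMem h1, Set.indicator_of_notMem (fun h => h2 h.1),
        Set.indicator_of_notMem h2, add_zero]

lemma P_split {K : ℕ} (hK : 7 ≤ K) : P K = P 7 * ∏ p ∈ QQ K, (1 - (p : ℝ)⁻¹) := by
  unfold P
  rw [← Finset.prod_filter_mul_prod_filter_not (Nat.primesBelow K) (7 ≤ ·), mul_comm]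
  congr 1
  refine Finset.prod_congr ?_ fun _ _ => rfl
  ext p
  rw [Finset.mem_filter, Nat.mem_primesBelow, Nat.mem_primesBelow]
  constructor
  · rintro ⟨⟨h1, h2⟩, h3⟩
    exact ⟨by omega, h2⟩
  · rintro ⟨h1, h2⟩
    exact ⟨⟨by omega, h2⟩, by omega⟩

lemma sg_empty : sg 500 ∅ ≤ 50863081 / 1000000000 := by
  unfold sg
  rw [Finset.sdiff_empty, QQ_eq, Finset.sum_union LHR,
    ← sum_cast LH LH_nodup (fun p : ℕ => ((p : ℚ)⁻¹) ^ 2) _ (fun p => by push_cast; rfl),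
    ← sum_cast LR LR_nodup (fun p : ℕ => ((p : ℚ)⁻¹) ^ 2) _ (fun p => by push_cast; rfl)]
  have := n1
  have h : (((LH.map fun p : ℕ => ((p : ℚ)⁻¹) ^ 2).sum + (LR.map fun p : ℕ => ((p : ℚ)⁻¹) ^ 2).sum : ℚ) : ℝ)
      ≤ ((50863081 / 1000000000 : ℚ) : ℝ) := by exact_mod_cast this
  push_cast at h ⊢
  exact h

lemma G_ge : (4 : ℝ) / 15 * (43787 / 1000000) ≤
    P 500 * ∑ s ∈ (QQ 500).powerset, ww s * uu 500 s := by
  have h1 : (5116370 : ℝ) / 1000000000 ≤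
      ∑ p ∈ LR.toFinset, ((p : ℝ)⁻¹) ^ 2 / (1 + (p : ℝ)⁻¹) := by
    rw [← sum_cast LR LR_nodup (fun p : ℕ => ((p : ℚ)⁻¹) ^ 2 / (1 + (p : ℚ)⁻¹)) _
      (fun p => by push_cast; rfl)]
    have := n2
    have h : ((5116370 / 1000000000 : ℚ) : ℝ) ≤
        (((LR.map fun p : ℕ => ((p : ℚ)⁻¹) ^ 2 / (1 + (p : ℚ)⁻¹)).sum : ℚ) : ℝ) := by
      exact_mod_cast this
    push_cast at h ⊢
    exact h
  have h2 : ∑ p ∈ LR.toFinset, ((p : ℝ)⁻¹) ^ 3 / (1 + (p : ℝ)⁻¹) +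
      (∑ p ∈ LR.toFinset, ((p : ℝ)⁻¹) ^ 2 / (1 + (p : ℝ)⁻¹)) ^ 2 ≤ 102349 / 1000000000 := by
    rw [← sum_cast LR LR_nodup (fun p : ℕ => ((p : ℚ)⁻¹) ^ 2 / (1 + (p : ℚ)⁻¹))
      (fun p => ((p : ℝ)⁻¹) ^ 2 / (1 + (p : ℝ)⁻¹)) (fun p => by push_cast; rfl),
      ← sum_cast LR LR_nodup (fun p : ℕ => ((p : ℚ)⁻¹) ^ 3 / (1 + (p : ℚ)⁻¹))
      (fun p => ((p : ℝ)⁻¹) ^ 3 / (1 + (p : ℝ)⁻¹)) (fun p => by push_cast; rfl)]
    have := n3
    have h : (((LR.map fun p : ℕ => ((p : ℚ)⁻¹) ^ 3 / (1 + (p : ℚ)⁻¹)).sum +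
        (LR.map fun p : ℕ => ((p : ℚ)⁻¹) ^ 2 / (1 + (p : ℚ)⁻¹)).sum ^ 2 : ℚ) : ℝ) ≤
        ((102349 / 1000000000 : ℚ) : ℝ) := by
      exact_mod_cast this
    push_cast at h ⊢
    exact h
  have h3 := sum_uu_ge LH LH_nodup LR.toFinset QQ_eq LHR sg_empty h1 h2
  have h4 : (4 : ℝ) / 15 * (43787 / 1000000) ≤ P 500 * ((∏ p ∈ LR.toFinset, (1 + (p : ℝ)⁻¹)) *
      rphi (rval (50863081 / 1000000000) (5116370 / 1000000000) (102349 / 1000000000))
        LH 0 0) := by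
    rw [P_split (by norm_num), P7, QQ_eq, Finset.prod_union LHR]
    have h5 : (∏ p ∈ LR.toFinset, (1 - (p : ℝ)⁻¹)) * ∏ p ∈ LR.toFinset, (1 + (p : ℝ)⁻¹) =
        ∏ p ∈ LR.toFinset, (1 - ((p : ℝ)⁻¹) ^ 2) := by
      rw [← Finset.prod_mul_distrib]
      exact Finset.prod_congr rfl fun p _ => by ring
    have h6 : ((qphi (qval (50863081 / 1000000000) (5116370 / 1000000000) (102349 / 1000000000))
        LH 0 0 : ℚ) : ℝ) =
        rphi (rval (50863081 / 1000000000) (5116370 / 1000000000) (102349 / 1000000000))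
        LH 0 0 := by
      have := qphi_cast (qval (50863081 / 1000000000) (5116370 / 1000000000) (102349 / 1000000000))
        (rval (50863081 / 1000000000) (5116370 / 1000000000) (102349 / 1000000000))
        (fun x y => by rw [qval_cast]; push_cast; rfl) LH 0 0
      rw [this]
      push_cast
      rfl
    have h7 := n4
    have h8 : ((43787 / 1000000 : ℚ) : ℝ) ≤ (((LH.map fun p : ℕ => (1 - (p : ℚ)⁻¹)).prod *
        (LR.map fun p : ℕ => (1 - ((p : ℚ)⁻¹) ^ 2)).prod *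
        qphi (qval (50863081 / 1000000000) (5116370 / 1000000000) (102349 / 1000000000))
          LH 0 0 : ℚ) : ℝ) := by
      exact_mod_cast h7
    rw [Rat.cast_mul, Rat.cast_mul, h6,
      prod_cast LH LH_nodup (fun p : ℕ => (1 - (p : ℚ)⁻¹)) (fun p : ℕ => (1 - (p : ℝ)⁻¹))
        (fun p => by push_cast; rfl),
      prod_cast LR LR_nodup (fun p : ℕ => (1 - ((p : ℚ)⁻¹) ^ 2)) (fun p : ℕ => (1 - ((p : ℝ)⁻¹) ^ 2))
        (fun p => by push_cast; rfl), ← h5] at h8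
    push_cast at h8
    calc (4 : ℝ) / 15 * (43787 / 1000000) ≤ 4 / 15 * ((∏ p ∈ LH.toFinset, (1 - (p : ℝ)⁻¹)) *
          ((∏ p ∈ LR.toFinset, (1 - (p : ℝ)⁻¹)) * ∏ p ∈ LR.toFinset, (1 + (p : ℝ)⁻¹)) *
          rphi (rval (50863081 / 1000000000) (5116370 / 1000000000) (102349 / 1000000000))
            LH 0 0) := mul_le_mul_of_nonneg_left h8 (by norm_num)
      _ = _ := by ring
  exact h4.trans (mul_le_mul_of_nonneg_left h3 (P_pos 500).le)

/-- The upper bound for the reciprocal sums. -/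
theorem PW_le {T : Set ℕ} (hTs : T ⊆ Nat.smoothNumbers 500) (hT : GPF 3 T) :
    P 500 * W T ≤ 7223 / 10000 := by
  have h1 := W_split hTs (le_refl (Nat.smoothNumbers 500))
  have h2 := W_smooth 500
  have h3 := missing hT (K := 500) (by norm_num) (by
    have := sg_empty
    linarith)
  have h4 : P 500 * W (FQ 500) = 4 / 15 := by rw [PW_FQ (by norm_num), P7]
  have h5 := G_ge
  have h6 := mul_le_mul_of_nonneg_left h3 (P_pos 500).le
  have hL1 : L1 = 27784964 / 10000000 := by unfold L1 L0; norm_num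
  have h7 : P 500 * (L0 * W (FQ 500) + L1 * ∑ s ∈ (QQ 500).powerset, ww s * uu 500 s) =
      L0 * (P 500 * W (FQ 500)) + L1 * (P 500 * ∑ s ∈ (QQ 500).powerset, ww s * uu 500 s) := by
    ring
  rw [h7, h4] at h6
  have h8 : L1 * (4 / 15 * (43787 / 1000000)) ≤
      L1 * (P 500 * ∑ s ∈ (QQ 500).powerset, ww s * uu 500 s) :=
    mul_le_mul_of_nonneg_left h5 (by rw [hL1]; norm_num)
  have h9 : P 500 * W T = 1 - P 500 * W (Nat.smoothNumbers 500 \ T) := by
    rw [← h2, ← h1]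
    ring
  rw [h9]
  have h10 : L0 * (4 / 15) + L1 * (4 / 15 * (43787 / 1000000)) ≤
      P 500 * W (Nat.smoothNumbers 500 \ T) := by linarith
  rw [hL1] at h10
  unfold L0 at h10
  norm_num at h10 ⊢
  linarith

/-- The upper bound for the densities. -/
theorem dens_le {A : Set ℕ} (hpos : ∀ n ∈ A, 1 ≤ n) (hA : GPF 3 A) {d : ℝ} (hd : Dens A d) :
    d ≤ 7223 / 10000 :=
  KG.upper hpos hA hd (by norm_num) fun _ h1 h2 => PW_le h1 h2

end Pool.Agent.H561.GPD
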