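import Pool.Agent.H413R3.KGMain
import Pool.Agent.H561.GPD.Upper
import Pool.Agent.H561.GPD.T1

/-!
# A dense set without progressions of integer ratio
-/

set_option autoImplicit false

open Finset

namespace Pool.Agent.H561.GPD

attribute [local irreducible] C T1 mask

open Pool.Agent.H413R3
open Pool.Agent.H413R3.KG (GPF W P Rough Dens mem_smooth_iff summable_of_smooth P_pos W_smooth
  D Fr sm rg fac_sm fac_rg dens_D fr_dens_exists fr_dens_ge fr_sub sm_pos rg_pos)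

/-- the primes from thirteen to `K` -/
def RQ (K : ℕ) : Finset ℕ := (Nat.primesBelow K).filter (13 ≤ ·)

lemma mem_RQ {K p : ℕ} : p ∈ RQ K ↔ p.Prime ∧ 13 ≤ p ∧ p < K := by
  unfold RQ
  rw [Finset.mem_filter, Nat.mem_primesBelow]
  tauto

/-- numbers whose prime factors lie in `R`, with exponents zero, one or three -/
def EE (R : Finset ℕ) : Set ℕ :=
  {n | n ≠ 0 ∧ ∀ p, (n.factorization p = 0 ∨ n.factorization p = 1 ∨ n.factorization p = 3) ∧
    (p ∉ R → n.factorization p = 0)}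

lemma EE_smooth {R : Finset ℕ} {K : ℕ} (hR : ∀ p ∈ R, p < K) : EE R ⊆ Nat.smoothNumbers K := by
  rintro n ⟨h0, h⟩
  rw [mem_smooth_iff]
  refine ⟨h0, fun p hp => (h p).2 fun h2 => ?_⟩
  have := hR p h2
  omega

lemma W_three {A B E S : Set ℕ} {K : ℕ} (hS : S ⊆ Nat.smoothNumbers K) (hA : A ⊆ S) (hB : B ⊆ S)
    (hE : E ⊆ S) (h1 : ∀ n, n ∈ A → n ∉ B) (h2 : ∀ n, n ∈ A → n ∉ E) (h3 : ∀ n, n ∈ B → n ∉ E) :
    W A + W B + W E ≤ W S := by
  unfold W
  have sA := summable_of_smooth (hA.trans hS)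
  have sB := summable_of_smooth (hB.trans hS)
  have sE := summable_of_smooth (hE.trans hS)
  rw [← sA.tsum_add sB, ← (sA.add sB).tsum_add sE]
  refine ((sA.add sB).add sE).tsum_le_tsum (fun n => ?_) (summable_of_smooth hS)
  by_cases a : n ∈ A
  · rw [Set.indicator_of_mem a, Set.indicator_of_notMem (h1 n a), Set.indicator_of_notMem (h2 n a),
      Set.indicator_of_mem (hA a)]
    simp
  · by_cases b : n ∈ B
    · rw [Set.indicator_of_notMem a, Set.indicator_of_mem b, Set.indicator_of_notMem (h3 n b),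
        Set.indicator_of_mem (hB b)]
      simp
    · by_cases e : n ∈ E
      · rw [Set.indicator_of_notMem a, Set.indicator_of_notMem b, Set.indicator_of_mem e,
          Set.indicator_of_mem (hE e)]
        simp
      · rw [Set.indicator_of_notMem a, Set.indicator_of_notMem b, Set.indicator_of_notMem e]
        simp only [add_zero]
        exact Set.indicator_nonneg (fun _ _ => by positivity) _

lemma fac_pow_mul {p e n : ℕ} (hp : p.Prime) (hn : n ≠ 0) (q : ℕ) :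
    (p ^ e * n).factorization q = (if q = p then e else 0) + n.factorization q := by
  rw [Nat.factorization_mul (pow_pos hp.pos e).ne' hn, Finsupp.add_apply,
    hp.factorization_pow, Finsupp.single_apply]
  congr 1
  by_cases h : q = p
  · rw [if_pos h, if_pos h.symm]
  · rw [if_neg h, if_neg (fun h' => h h'.symm)]

lemma EE_mul {R : Finset ℕ} {p e : ℕ} (hp : p.Prime) (hpR : p ∉ R) (he : e = 0 ∨ e = 1 ∨ e = 3)
    {n : ℕ} (hn : n ∈ EE R) :
    p ^ e * n ∈ EE (insert p R) ∧ (p ^ e * n).factorization p = e := by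
  obtain ⟨h0, h⟩ := hn
  have hfp : n.factorization p = 0 := (h p).2 hpR
  refine ⟨⟨mul_ne_zero (pow_pos hp.pos e).ne' h0, fun q => ?_⟩, ?_⟩
  · rw [fac_pow_mul hp h0]
    by_cases hq : q = p
    · subst hq
      rw [if_pos rfl, hfp, add_zero]
      exact ⟨he, fun h2 => absurd (Finset.mem_insert_self _ _) h2⟩
    · rw [if_neg hq, zero_add]
      refine ⟨(h q).1, fun h2 => (h q).2 fun h3 => h2 (Finset.mem_insert_of_mem h3)⟩
  · rw [fac_pow_mul hp h0, if_pos rfl, hfp, add_zero]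

lemma W_EE (R : Finset ℕ) (hR : ∀ p ∈ R, p.Prime) :
    ∏ p ∈ R, (1 + (p : ℝ)⁻¹ + ((p : ℝ)⁻¹) ^ 3) ≤ W (EE R) := by
  induction R using Finset.induction_on with
  | empty =>
    rw [Finset.prod_empty]
    have h1 : ({1} : Set ℕ) ⊆ EE ∅ := by
      rintro n rfl
      exact ⟨one_ne_zero, fun p => by simp⟩
    have h2 := KG.W_mono h1 (EE_smooth (R := ∅) (K := 0) (by simp))
    have h3 : W ({1} : Set ℕ) = 1 := by
      have := KG.W_finset {1}
      simpa using this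
    rw [h3] at h2
    exact h2
  | insert p R hp ih =>
    rw [Finset.prod_insert hp]
    have ih' := ih fun q hq => hR q (Finset.mem_insert_of_mem hq)
    have hpp := hR p (Finset.mem_insert_self p R)
    obtain ⟨K, hK⟩ : ∃ K, ∀ q ∈ insert p R, q < K := by
      refine ⟨(insert p R).sup id + 1, fun q hq => ?_⟩
      have := Finset.le_sup (f := id) hq
      simp only [id] at this
      omega
    have hE := EE_smooth hK
    have h0 : EE R ⊆ EE (insert p R) := by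
      intro n hn
      have := (EE_mul hpp hp (Or.inl rfl) hn).1
      simpa using this
    have i1 : (fun n => p * n) '' EE R ⊆ EE (insert p R) := by
      rintro n ⟨m, hm, rfl⟩
      have := (EE_mul hpp hp (Or.inr (Or.inl rfl)) hm).1
      rw [pow_one] at this
      exact this
    have i3 : (fun n => p ^ 3 * n) '' EE R ⊆ EE (insert p R) := by
      rintro n ⟨m, hm, rfl⟩
      exact (EE_mul hpp hp (Or.inr (Or.inr rfl)) hm).1
    have v0 : ∀ n ∈ EE R, n.factorization p = 0 := fun n hn => (hn.2 p).2 hp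
    have v1 : ∀ n ∈ (fun n => p * n) '' EE R, n.factorization p = 1 := by
      rintro n ⟨m, hm, rfl⟩
      have := (EE_mul hpp hp (Or.inr (Or.inl rfl)) hm).2
      rw [pow_one] at this
      exact this
    have v3 : ∀ n ∈ (fun n => p ^ 3 * n) '' EE R, n.factorization p = 3 := by
      rintro n ⟨m, hm, rfl⟩
      exact (EE_mul hpp hp (Or.inr (Or.inr rfl)) hm).2
    have h4 := W_three hE h0 i1 i3 (fun n a b => by
      have := v0 n a
      have := v1 n b
      omega) (fun n a b => by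
      have := v0 n a
      have := v3 n b
      omega) (fun n a b => by
      have := v1 n a
      have := v3 n b
      omega)
    rw [W_image _ hpp.pos, W_image _ (pow_pos hpp.pos 3)] at h4
    push_cast at h4
    have h5 : 0 < 1 + (p : ℝ)⁻¹ + ((p : ℝ)⁻¹) ^ 3 := by positivity
    have h6 := mul_le_mul_of_nonneg_left ih' h5.le
    have h7 : ((p : ℝ) ^ 3)⁻¹ = ((p : ℝ)⁻¹) ^ 3 := by rw [inv_pow]
    rw [h7] at h4
    linarith

/-- the large factor -/
def KK : ℕ := 100000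

/-- numbers with exponents zero, one, three at the primes from 13 to `KK`, zero or one at the
larger primes -/
def C1 : Set ℕ := D KK (EE (RQ KK)) (Fr 3 KK)

/-- the elements of the list -/
def TT : Set ℕ := {t | t ∈ T1}

/-- the set of the lower bound -/
def BB : Set ℕ := D 13 TT C1

lemma T1_sm : TT ⊆ Nat.smoothNumbers 13 := by
  intro c hc
  have h1 := List.all_eq_true.1 T1_dvd c hc
  have h2 : c ∣ 2310 ^ 16 := Nat.dvd_of_mod_eq_zero (Nat.eq_of_beq_eq_true h1)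
  have hc0 : c ≠ 0 := by
    rintro rfl
    rw [Nat.zero_dvd] at h2
    revert h2
    norm_num
  rw [mem_smooth_iff]
  refine ⟨hc0, fun p hp => ?_⟩
  by_contra hne
  have hpp : p.Prime := by
    by_contra hnp
    exact hne (Nat.factorization_eq_zero_of_not_prime _ hnp)
  have hd : p ∣ c := Nat.dvd_of_factorization_pos hne
  have h3 : p ∣ 2310 := hpp.dvd_of_dvd_pow (hd.trans h2)
  have h4 : p ∣ 2 * 3 * 5 * 7 * 11 := by
    norm_num
    exact h3
  rw [hpp.dvd_mul, hpp.dvd_mul, hpp.dvd_mul, hpp.dvd_mul] at h4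
  rcases h4 with (((h4 | h4) | h4) | h4) | h4 <;>
  · have := Nat.le_of_dvd (by norm_num) h4
    omega

lemma C1_rough : C1 ⊆ Rough 13 := by
  rintro n ⟨h1, h2, h3⟩
  refine ⟨h1, fun p hp => ?_⟩
  have h4 := (h2.2 p).2 (fun h => by
    have := (mem_RQ.1 h).2.1
    omega)
  rw [fac_sm, if_pos (by unfold KK; omega)] at h4
  exact h4

/-- the exponents of the elements of the set -/
lemma BB_exp {n : ℕ} (hn : n ∈ BB) : 1 ≤ n ∧ sm 13 n ∈ T1 ∧ ∀ p, 13 ≤ p →
    (n.factorization p = 0 ∨ n.factorization p = 1 ∨ n.factorization p = 3) := by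
  obtain ⟨h1, h2, h3⟩ := hn
  have hn0 : n ≠ 0 := by omega
  refine ⟨h1, h2, fun p hp => ?_⟩
  obtain ⟨h4, h5, h6⟩ := h3
  have h7 : (rg 13 n).factorization p = n.factorization p := by
    rw [fac_rg 13 p hn0, if_neg (by omega)]
  by_cases hpK : p < KK
  · have h8 := (h5.2 p).1
    rw [fac_sm, if_pos hpK, h7] at h8
    exact h8
  · have h8 := h6.2 p
    rw [fac_rg KK p (by omega), if_neg hpK, h7] at h8
    omega

/-- no progression with integer ratio -/
lemma BB_free {a k : ℕ} (hk : 2 ≤ k) (h0 : a ∈ BB) (h1 : a * k ∈ BB) (h2 : a * (k * k) ∈ BB) :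
    False := by
  obtain ⟨a1, a2, a3⟩ := BB_exp h0
  obtain ⟨b1, b2, b3⟩ := BB_exp h1
  obtain ⟨c1, c2, c3⟩ := BB_exp h2
  have ha0 : a ≠ 0 := by omega
  have hk0 : k ≠ 0 := by omega
  have hfk : ∀ p, 13 ≤ p → k.factorization p = 0 := by
    intro p hp
    have e1 := a3 p hp
    have e2 := b3 p hp
    have e3 := c3 p hp
    rw [Nat.factorization_mul ha0 hk0, Finsupp.add_apply] at e2
    rw [Nat.factorization_mul ha0 (mul_ne_zero hk0 hk0), Finsupp.add_apply,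
      Nat.factorization_mul hk0 hk0, Finsupp.add_apply] at e3
    omega
  have key : ∀ m, m ≠ 0 → (∀ p, 13 ≤ p → m.factorization p = 0) →
      sm 13 (a * m) = sm 13 a * m := by
    intro m hm0 hm
    apply Nat.eq_of_factorization_eq (sm_pos 13 _).ne' (mul_ne_zero (sm_pos 13 a).ne' hm0)
    intro q
    rw [fac_sm, Nat.factorization_mul ha0 hm0, Finsupp.add_apply,
      Nat.factorization_mul (sm_pos 13 a).ne' hm0, Finsupp.add_apply, fac_sm]
    by_cases hq : q < 13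
    · rw [if_pos hq, if_pos hq]
    · rw [if_neg hq, if_neg hq, hm q (by omega)]
  rw [key k hk0 hfk] at b2
  rw [key (k * k) (mul_ne_zero hk0 hk0) (fun p hp => by
    rw [Nat.factorization_mul hk0 hk0, Finsupp.add_apply, hfk p hp])] at c2
  exact T1_free a2 hk b2 c2

/-- the primes from 13 to 499 -/
def LB : List ℕ :=
  [13, 17, 19, 23, 29, 31, 37, 41, 43, 47, 53, 59, 61, 67, 71, 73, 79, 83, 89, 97, 101, 103,
   107, 109, 113, 127, 131, 137, 139, 149, 151, 157, 163, 167, 173, 179, 181, 191, 193, 197,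
   199, 211, 223, 227, 229, 233, 239, 241, 251, 257, 263, 269, 271, 277, 281, 283, 293, 307,
   311, 313, 317, 331, 337, 347, 349, 353, 359, 367, 373, 379, 383, 389, 397, 401, 409, 419,
   421, 431, 433, 439, 443, 449, 457, 461, 463, 467, 479, 487, 491, 499]

lemma RQ_eq : RQ 500 = LB.toFinset := by
  have h : RQ 500 = (LH.toFinset ∪ LR.toFinset).filter (13 ≤ ·) := by
    rw [← QQ_eq]
    ext p
    rw [Finset.mem_filter, mem_RQ, mem_QQ]
    constructor
    · rintro ⟨h1, h2, h3⟩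
      exact ⟨⟨h1, by omega, h3⟩, h2⟩
    · rintro ⟨⟨h1, _, h3⟩, h2⟩
      exact ⟨h1, h2, h3⟩
  rw [h]
  decide +kernel

lemma LB_nodup : LB.Nodup := by decide +kernel

lemma n5 : 7234665 / 10000000 ≤ 16 / 77 * (T1.map fun t : ℕ => ((t : ℚ)⁻¹)).sum *
    (LB.map fun p : ℕ => ((1 - (p : ℚ)⁻¹) * (1 + (p : ℚ)⁻¹ + ((p : ℚ)⁻¹) ^ 3))).prod := by
  decide +kernel

lemma P13 : P 13 = 16 / 77 := by
  have h : Nat.primesBelow 13 = {2, 3, 5, 7, 11} := by decide
  unfold P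
  rw [h]
  norm_num

lemma P_split13 {K : ℕ} (hK : 13 ≤ K) : P K = P 13 * ∏ p ∈ RQ K, (1 - (p : ℝ)⁻¹) := by
  unfold P
  rw [← Finset.prod_filter_mul_prod_filter_not (Nat.primesBelow K) (13 ≤ ·), mul_comm]
  congr 1
  refine Finset.prod_congr ?_ fun _ _ => rfl
  ext p
  rw [Finset.mem_filter, Nat.mem_primesBelow, Nat.mem_primesBelow]
  constructor
  · rintro ⟨⟨h1, h2⟩, h3⟩
    exact ⟨by omega, h2⟩
  · rintro ⟨h1, h2⟩
    exact ⟨⟨by omega, h2⟩, by omega⟩

attribute [local irreducible] RQ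

lemma one_sub_sum_le (s : Finset ℕ) (x : ℕ → ℝ) (h0 : ∀ p ∈ s, 0 ≤ x p) (h1 : ∀ p ∈ s, x p ≤ 1) :
    1 - ∑ p ∈ s, x p ≤ ∏ p ∈ s, (1 - x p) := by
  induction s using Finset.induction_on with
  | empty => simp
  | insert a s ha ih =>
    rw [Finset.sum_insert ha, Finset.prod_insert ha]
    have ih' := ih (fun p hp => h0 p (Finset.mem_insert_of_mem hp))
      (fun p hp => h1 p (Finset.mem_insert_of_mem hp))
    have b0 := h0 a (Finset.mem_insert_self a s)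
    have b1 := h1 a (Finset.mem_insert_self a s)
    have b2 : 0 ≤ ∑ p ∈ s, x p :=
      Finset.sum_nonneg fun p hp => h0 p (Finset.mem_insert_of_mem hp)
    have b3 := mul_le_mul_of_nonneg_left ih' (sub_nonneg.2 b1)
    nlinarith

lemma sum_odd (n : ℕ) : ∑ j ∈ Finset.Ico 250 (250 + n), (((2 * j + 1 : ℕ) : ℝ)⁻¹) ^ 2 ≤
    1 / 1000 - 1 / (4 * (250 + n)) := by
  induction n with
  | zero => norm_num
  | succ n ih =>
    rw [← add_assoc, Finset.sum_Ico_succ_top (by omega)]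
    have h1 : (((2 * (250 + n) + 1 : ℕ) : ℝ)⁻¹) ^ 2 ≤
        1 / (4 * (250 + n)) - 1 / (4 * (250 + (n + 1 : ℕ))) := by
      push_cast
      have h2 : (0 : ℝ) < 250 + n := by positivity
      have h3 : (0 : ℝ) < 250 + (n + 1) := by positivity
      have h4 : 1 / (4 * (250 + (n : ℝ))) - 1 / (4 * (250 + (n + 1))) =
          1 / (4 * (250 + n) * (250 + (n + 1))) := by
        field_simp
        ring
      rw [h4, inv_pow, ← one_div]
      apply one_div_le_one_div_of_le (by positivity)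
      nlinarith
    linarith

lemma tail_le (K : ℕ) : ∑ p ∈ RQ K \ RQ 500, ((p : ℝ)⁻¹) ^ 2 ≤ 1 / 1000 := by
  classical
  have hsub : RQ K \ RQ 500 ⊆
      (Finset.Ico 250 (250 + K)).image (fun j : ℕ => (2 * j + 1 : ℕ)) := by
    intro p hp
    rw [Finset.mem_sdiff, mem_RQ, mem_RQ] at hp
    obtain ⟨⟨h1, h2, h3⟩, h4⟩ := hp
    have h5 : 500 ≤ p := by
      by_contra h
      exact h4 ⟨h1, h2, by omega⟩
    rcases h1.eq_two_or_odd with h6 | h6
    · omega
    · rw [Finset.mem_image]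
      refine ⟨p / 2, Finset.mem_Ico.2 ⟨by omega, by omega⟩, by omega⟩
  have h1 : ∑ p ∈ RQ K \ RQ 500, ((p : ℝ)⁻¹) ^ 2 ≤
      ∑ p ∈ (Finset.Ico 250 (250 + K)).image (fun j : ℕ => (2 * j + 1 : ℕ)), ((p : ℝ)⁻¹) ^ 2 :=
    Finset.sum_le_sum_of_subset_of_nonneg hsub fun p _ _ => by positivity
  have h2 : ∑ p ∈ (Finset.Ico 250 (250 + K)).image (fun j : ℕ => (2 * j + 1 : ℕ)), ((p : ℝ)⁻¹) ^ 2 =
      ∑ j ∈ Finset.Ico 250 (250 + K), (((2 * j + 1 : ℕ) : ℝ)⁻¹) ^ 2 :=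
    Finset.sum_image fun a _ b _ h => by
      have h' : 2 * a + 1 = 2 * b + 1 := h
      omega
  have h3 := sum_odd K
  have h5 : (0 : ℝ) ≤ (K : ℝ) := Nat.cast_nonneg K
  have h4 : (0 : ℝ) ≤ 1 / (4 * (250 + (K : ℝ))) := div_nonneg zero_le_one (by linarith)
  linarith

attribute [local irreducible] LB in
lemma W_TT : W TT = (((T1.map fun t : ℕ => ((t : ℚ)⁻¹)).sum : ℚ) : ℝ) := by
  have h1 : TT = ((T1.toFinset : Finset ℕ) : Set ℕ) := by
    ext t
    simp [TT]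
  rw [h1, KG.W_finset]
  exact (sum_cast T1 T1_nodup (fun t : ℕ => ((t : ℚ)⁻¹)) (fun t => ((t : ℝ)⁻¹))
    (fun t => by push_cast; rfl)).symm

attribute [local irreducible] KK LB

/-- The density of the set. -/
theorem BB_dens : ∃ d : ℝ, Dens BB d ∧ 7227 / 10000 ≤ d := by
  obtain ⟨γ, hγ⟩ := fr_dens_exists (k := 3) le_rfl KK
  have h1 := fr_dens_ge (k := 3) le_rfl (K := KK) (by unfold KK; norm_num) hγ
  have hE : EE (RQ KK) ⊆ Nat.smoothNumbers KK := EE_smooth fun p hp => (mem_RQ.1 hp).2.2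
  have h2 : Dens C1 (γ * W (EE (RQ KK))) := dens_D hE (fr_sub 3 KK) hγ
  have h3 : Dens BB (γ * W (EE (RQ KK)) * W TT) := dens_D T1_sm C1_rough h2
  refine ⟨_, h3, ?_⟩
  have hW := W_EE (RQ KK) fun p hp => (mem_RQ.1 hp).1
  have hP := P_pos KK
  -- the product over the primes
  have h4 : (∏ p ∈ RQ KK, (1 - (p : ℝ)⁻¹)) * ∏ p ∈ RQ KK, (1 + (p : ℝ)⁻¹ + ((p : ℝ)⁻¹) ^ 3) =
      ∏ p ∈ RQ KK, ((1 - (p : ℝ)⁻¹) * (1 + (p : ℝ)⁻¹ + ((p : ℝ)⁻¹) ^ 3)) :=
    Finset.prod_mul_distrib.symm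
  have hsub : RQ 500 ⊆ RQ KK := by
    intro p hp
    rw [mem_RQ] at hp ⊢
    exact ⟨hp.1, hp.2.1, by unfold KK; omega⟩
  have h5 : ∏ p ∈ RQ KK, ((1 - (p : ℝ)⁻¹) * (1 + (p : ℝ)⁻¹ + ((p : ℝ)⁻¹) ^ 3)) =
      (∏ p ∈ RQ KK \ RQ 500, ((1 - (p : ℝ)⁻¹) * (1 + (p : ℝ)⁻¹ + ((p : ℝ)⁻¹) ^ 3))) *
      ∏ p ∈ RQ 500, ((1 - (p : ℝ)⁻¹) * (1 + (p : ℝ)⁻¹ + ((p : ℝ)⁻¹) ^ 3)) :=
    (Finset.prod_sdiff hsub).symm
  have hq : ∀ p ∈ RQ KK, 0 < (p : ℝ)⁻¹ ∧ (p : ℝ)⁻¹ ≤ 1 := by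
    intro p hp
    have h6 := (mem_RQ.1 hp).2.1
    have h7 : (1 : ℝ) ≤ p := by exact_mod_cast (by omega : 1 ≤ p)
    exact ⟨by positivity, inv_le_one_of_one_le₀ h7⟩
  have h6 : 999 / 1000 ≤
      ∏ p ∈ RQ KK \ RQ 500, ((1 - (p : ℝ)⁻¹) * (1 + (p : ℝ)⁻¹ + ((p : ℝ)⁻¹) ^ 3)) := by
    have a1 : ∏ p ∈ RQ KK \ RQ 500, (1 - ((p : ℝ)⁻¹) ^ 2) ≤
        ∏ p ∈ RQ KK \ RQ 500, ((1 - (p : ℝ)⁻¹) * (1 + (p : ℝ)⁻¹ + ((p : ℝ)⁻¹) ^ 3)) := by
      refine Finset.prod_le_prod (fun p hp => ?_) fun p hp => ?_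
      · obtain ⟨b1, b2⟩ := hq p (Finset.mem_sdiff.1 hp).1
        nlinarith
      · obtain ⟨b1, b2⟩ := hq p (Finset.mem_sdiff.1 hp).1
        have b3 : 0 ≤ ((p : ℝ)⁻¹) ^ 3 * (1 - (p : ℝ)⁻¹) :=
          mul_nonneg (by positivity) (by linarith)
        nlinarith
    have a2 := one_sub_sum_le (RQ KK \ RQ 500) (fun p => ((p : ℝ)⁻¹) ^ 2)
      (fun p _ => by positivity) (fun p hp => by
        obtain ⟨b1, b2⟩ := hq p (Finset.mem_sdiff.1 hp).1
        nlinarith)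
    have a3 := tail_le KK
    linarith
  set A : ℝ := ∏ p ∈ RQ 500, ((1 - (p : ℝ)⁻¹) * (1 + (p : ℝ)⁻¹ + ((p : ℝ)⁻¹) ^ 3)) with hA
  have hA0 : 0 ≤ A := by
    refine Finset.prod_nonneg fun p hp => ?_
    obtain ⟨b1, b2⟩ := hq p (hsub hp)
    exact mul_nonneg (by linarith) (by positivity)
  have h7 : 7234665 / 10000000 ≤ 16 / 77 * W TT * A := by
    have c1 := n5
    have c2 : ((7234665 / 10000000 : ℚ) : ℝ) ≤
        ((16 / 77 * (T1.map fun t : ℕ => ((t : ℚ)⁻¹)).sum * (LB.map fun p : ℕ =>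
          ((1 - (p : ℚ)⁻¹) * (1 + (p : ℚ)⁻¹ + ((p : ℚ)⁻¹) ^ 3))).prod : ℚ) : ℝ) := by
      exact_mod_cast c1
    rw [Rat.cast_mul, Rat.cast_mul, ← W_TT, prod_cast LB LB_nodup (fun p : ℕ =>
      ((1 - (p : ℚ)⁻¹) * (1 + (p : ℚ)⁻¹ + ((p : ℚ)⁻¹) ^ 3)))
      (fun p => ((1 - (p : ℝ)⁻¹) * (1 + (p : ℝ)⁻¹ + ((p : ℝ)⁻¹) ^ 3)))
      (fun p => by push_cast; rfl), ← RQ_eq, ← hA] at c2
    push_cast at c2
    exact c2
  have hWT : 0 ≤ W TT := KG.W_nonneg _
  have hWE : 0 ≤ W (EE (RQ KK)) := KG.W_nonneg _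
  have h8 : P KK * W (EE (RQ KK)) ≥ 16 / 77 * (999 / 1000 * A) := by
    rw [P_split13 (by unfold KK; norm_num), P13]
    have d0 : 0 ≤ ∏ p ∈ RQ KK, (1 - (p : ℝ)⁻¹) :=
      Finset.prod_nonneg fun p hp => by
        obtain ⟨b1, b2⟩ := hq p hp
        linarith
    have d1 := mul_le_mul_of_nonneg_left hW d0
    rw [h4, h5] at d1
    have d2 := mul_le_mul_of_nonneg_right h6 hA0
    nlinarith
  have h9 : (1 - 1 / ((KK : ℝ) - 1)) * (P KK * W (EE (RQ KK))) ≤ γ * W (EE (RQ KK)) := by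
    have := mul_le_mul_of_nonneg_right h1 hWE
    linarith
  have h10 : (0 : ℝ) ≤ 1 - 1 / ((KK : ℝ) - 1) := by
    unfold KK
    norm_num
  have h11 : (1 - 1 / ((KK : ℝ) - 1)) * (16 / 77 * (999 / 1000 * A)) * W TT ≤
      γ * W (EE (RQ KK)) * W TT :=
    mul_le_mul_of_nonneg_right ((mul_le_mul_of_nonneg_left h8 h10).trans h9) hWT
  refine le_trans ?_ h11
  have h12 : (1 - 1 / ((KK : ℝ) - 1)) * (16 / 77 * (999 / 1000 * A)) * W TT =
      (1 - 1 / ((KK : ℝ) - 1)) * (999 / 1000) * (16 / 77 * W TT * A) := by ring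
  rw [h12]
  have h13 : (99998 : ℝ) / 99999 = 1 - 1 / ((KK : ℝ) - 1) := by
    unfold KK
    norm_num
  rw [← h13]
  linarith

end Pool.Agent.H561.GPD
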