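import Mathlib

/-!
# A checker for packing certificates

Codes `4 n + l` stand for the element `n` of the level `l`. The list of the codes is stored as one
natural number `NE` (twenty bits for each code). A table is a list of entries: a weight and three
positions (a progression) or six positions (three progressions, two by two with a common element).
-/

set_option autoImplicit false

open Finset

namespace Pool.Agent.H561.GPD

/-- `m` is the middle of a progression with the other terms `u`, `v`: three different terms of one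
level, or terms of the levels zero, one, two. -/
def okT (u m v : ℕ) : Bool :=
  ((u / 4) * (v / 4)).beq ((m / 4) * (m / 4)) &&
    (((u % 4).beq (m % 4) && (m % 4).beq (v % 4) && !((u / 4).beq (m / 4))) ||
      ((m % 4).beq 1 && (((u % 4).beq 0 && (v % 4).beq 2) || ((u % 4).beq 2 && (v % 4).beq 0))))

/-- progression in some order -/
def val3 (a b c : ℕ) : Bool := okT a b c || okT b a c || okT a c b

/-- the code at the position `i` -/
def dec (NE i : ℕ) : ℕ := NE / 2 ^ (20 * i) % 1048576

/-- an entry of a table -/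
abbrev Ent := ℕ × List ℕ

/-- the entry is admissible -/
def okE (NE : ℕ) : Ent → Bool
  | (_, [a, b, c]) => val3 (dec NE a) (dec NE b) (dec NE c)
  | (_, [a, b, c, x, y, z]) => val3 (dec NE a) (dec NE b) (dec NE x) &&
      (val3 (dec NE b) (dec NE c) (dec NE y) && val3 (dec NE a) (dec NE c) (dec NE z))
  | _ => false

/-- the number of elements which are missing at least -/
def bE : Ent → ℕ
  | (_, [_, _, _]) => 1
  | _ => 2

/-- value of the table -/
def vl : List Ent → ℕ
  | [] => 0
  | x :: l => x.1 * bE x + vl l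

/-- all entries are admissible -/
def okAll (NE : ℕ) : List Ent → Bool
  | [] => true
  | x :: l => okE NE x && okAll NE l

/-- all positions are below `n` -/
def inAll (n : ℕ) : List Ent → Bool
  | [] => true
  | x :: l => x.2.all (fun y => (y + 1).ble n) && inAll n l

/-- the total weight -/
def wtot : List Ent → ℕ
  | [] => 0
  | x :: l => x.1 * x.2.length + wtot l

/-- sum of powers of `2 ^ 40` -/
def sP : List ℕ → ℕ
  | [] => 0
  | x :: l => 2 ^ (40 * x) + sP l

/-- the weights as digits of one number -/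
def SS : List Ent → ℕ
  | [] => 0
  | x :: l => x.1 * sP x.2 + SS l

/-- the weights are at most the capacities `cap l * D / n` -/
def capAll (NE S : ℕ) (cap : ℕ → ℕ) (D : ℕ) : ℕ → Bool
  | 0 => true
  | i + 1 => ((S / 2 ^ (40 * i) % 1099511627776) * (dec NE i / 4)).ble
      (cap (dec NE i % 4) * D) && capAll NE S cap D i

/-- the weight at the position `e` in an entry -/
def ldL (e w : ℕ) (l : List ℕ) : ℕ := w * l.count e

/-- the total weight at the position `e` -/
def ld (e : ℕ) : List Ent → ℕ
  | [] => 0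
  | x :: l => ldL e x.1 x.2 + ld e l

lemma ld_cons (e : ℕ) (x : Ent) (l : List Ent) : ld e (x :: l) = ldL e x.1 x.2 + ld e l := rfl

lemma vl_cons (x : Ent) (l : List Ent) : vl (x :: l) = x.1 * bE x + vl l := rfl

lemma SS_cons (x : Ent) (l : List Ent) : SS (x :: l) = x.1 * sP x.2 + SS l := rfl

lemma sP_cons (x : ℕ) (l : List ℕ) : sP (x :: l) = 2 ^ (40 * x) + sP l := rfl

lemma wtot_cons (x : Ent) (l : List Ent) : wtot (x :: l) = x.1 * x.2.length + wtot l := rfl

lemma ld_le_wtot (e : ℕ) (tab : List Ent) : ld e tab ≤ wtot tab := by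
  induction tab with
  | nil => simp [ld, wtot]
  | cons x l ih =>
    rw [ld_cons, wtot_cons]
    exact Nat.add_le_add (Nat.mul_le_mul_left _ List.count_le_length) ih

/-- the missing weight of an entry -/
def ms (mis : ℕ → ℕ) (l : List ℕ) : ℕ := (l.map mis).sum

lemma ms_le (NE : ℕ) (mis : ℕ → ℕ)
    (h : ∀ a b c, val3 a b c = true → 1 ≤ mis a + mis b + mis c)
    (x : Ent) (hx : okE NE x = true) : bE x ≤ ms (fun i => mis (dec NE i)) x.2 := by
  obtain ⟨w, l⟩ := x
  match l, hx with
  | [a, b, c], hx =>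
    have := h (dec NE a) (dec NE b) (dec NE c) hx
    simp only [bE, ms, List.map_cons, List.map_nil, List.sum_cons, List.sum_nil]
    omega
  | [a, b, c, x, y, z], hx =>
    simp only [okE, Bool.and_eq_true] at hx
    have h1 := h _ _ _ hx.1
    have h2 := h _ _ _ hx.2.1
    have h3 := h _ _ _ hx.2.2
    simp only [bE, ms, List.map_cons, List.map_nil, List.sum_cons, List.sum_nil]
    omega

/-- sums over a list and over the positions -/
lemma sum_count (f : ℕ → ℕ) (n : ℕ) (l : List ℕ) (hl : ∀ y ∈ l, y < n) :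
    (l.map f).sum = ∑ e ∈ range n, l.count e * f e := by
  induction l with
  | nil => simp
  | cons y l ih =>
    have h1 := ih fun z hz => hl z (List.mem_cons_of_mem _ hz)
    have h2 : ∑ e ∈ range n, (y :: l).count e * f e =
        ∑ e ∈ range n, (l.count e * f e + if y = e then f e else 0) := by
      refine Finset.sum_congr rfl fun e _ => ?_
      rw [List.count_cons]
      by_cases h : y = e
      · subst h
        simp
        ring
      · simp [h]
    rw [h2, Finset.sum_add_distrib, Finset.sum_ite_eq,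
      if_pos (mem_range.2 (hl y List.mem_cons_self)), ← h1]
    simp only [List.map_cons, List.sum_cons]
    ring

lemma sP_eq (l : List ℕ) : sP l = (l.map fun i => 2 ^ (40 * i)).sum := by
  induction l with
  | nil => rfl
  | cons y l ih => rw [sP_cons, ih]; simp

lemma inAll_iff {n : ℕ} {x : Ent} {tab : List Ent} (h : inAll n (x :: tab) = true) :
    (∀ y ∈ x.2, y < n) ∧ inAll n tab = true := by
  unfold inAll at h
  rw [Bool.and_eq_true] at h
  refine ⟨fun y hy => ?_, h.2⟩
  have := Nat.le_of_ble_eq_true (List.all_eq_true.1 h.1 y hy)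
  omega

lemma SS_eq (n : ℕ) (tab : List Ent) (hin : inAll n tab = true) :
    SS tab = ∑ e ∈ range n, ld e tab * 2 ^ (40 * e) := by
  induction tab with
  | nil => simp [SS, ld]
  | cons x tab ih =>
    obtain ⟨h1, h2⟩ := inAll_iff hin
    rw [SS_cons, ih h2, sP_eq, sum_count _ n _ h1, Finset.mul_sum, ← Finset.sum_add_distrib]
    refine Finset.sum_congr rfl fun e _ => ?_
    rw [ld_cons]
    unfold ldL
    ring

lemma tab_sum (NE : ℕ) (mis : ℕ → ℕ)
    (h : ∀ a b c, val3 a b c = true → 1 ≤ mis a + mis b + mis c)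
    (n : ℕ) (tab : List Ent) (hok : okAll NE tab = true) (hin : inAll n tab = true) :
    vl tab ≤ ∑ e ∈ range n, mis (dec NE e) * ld e tab := by
  induction tab with
  | nil => simp [vl]
  | cons x tab ih =>
    unfold okAll at hok
    rw [Bool.and_eq_true] at hok
    obtain ⟨h3, h4⟩ := inAll_iff hin
    have h1 := ih hok.2 h4
    have h2 := ms_le NE mis h x hok.1
    have h5 : ∑ e ∈ range n, mis (dec NE e) * ld e (x :: tab) =
        x.1 * ms (fun i => mis (dec NE i)) x.2 + ∑ e ∈ range n, mis (dec NE e) * ld e tab := by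
      unfold ms
      rw [sum_count _ n _ h3, Finset.mul_sum, ← Finset.sum_add_distrib]
      refine Finset.sum_congr rfl fun e _ => ?_
      rw [ld_cons]
      unfold ldL
      ring
    rw [h5, vl_cons]
    exact Nat.add_le_add (Nat.mul_le_mul_left _ h2) h1

lemma sum_lt_pow (a : ℕ → ℕ) (B : ℕ) (i : ℕ) (h : ∀ j, j < i → a j < B) :
    ∑ j ∈ range i, a j * B ^ j < B ^ i := by
  induction i with
  | zero => simp
  | succ i ih =>
    rw [Finset.sum_range_succ]
    have h1 := ih fun j hj => h j (by omega)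
    have h2 : a i + 1 ≤ B := h i (by omega)
    have h3 : (a i + 1) * B ^ i ≤ B * B ^ i := Nat.mul_le_mul_right _ h2
    calc ∑ j ∈ range i, a j * B ^ j + a i * B ^ i < B ^ i + a i * B ^ i := by omega
      _ = (a i + 1) * B ^ i := by ring
      _ ≤ B * B ^ i := h3
      _ = B ^ (i + 1) := by ring

lemma digit (a : ℕ → ℕ) (B : ℕ) (n i : ℕ) (hi : i < n) (h : ∀ j, j < n → a j < B) :
    (∑ j ∈ range n, a j * B ^ j) / B ^ i % B = a i := by
  have hB : 0 < B := lt_of_le_of_lt (Nat.zero_le _) (h i hi)
  obtain ⟨k, rfl⟩ : ∃ k, n = i + 1 + k := ⟨n - (i + 1), by omega⟩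
  rw [Finset.sum_range_add, Finset.sum_range_succ]
  have h1 := sum_lt_pow a B i fun j hj => h j (by omega)
  have h2 : ∑ x ∈ range k, a (i + 1 + x) * B ^ (i + 1 + x) =
      B ^ i * (B * ∑ x ∈ range k, a (i + 1 + x) * B ^ x) := by
    rw [Finset.mul_sum, Finset.mul_sum]
    refine Finset.sum_congr rfl fun x _ => ?_
    ring
  have h3 : ∑ j ∈ range i, a j * B ^ j + a i * B ^ i +
      ∑ x ∈ range k, a (i + 1 + x) * B ^ (i + 1 + x) =
      ∑ j ∈ range i, a j * B ^ j +
        B ^ i * (a i + B * ∑ x ∈ range k, a (i + 1 + x) * B ^ x) := by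
    rw [h2]
    ring
  rw [h3, Nat.add_mul_div_left _ _ (pow_pos hB i), Nat.div_eq_of_lt h1, zero_add,
    Nat.add_mul_mod_self_left, Nat.mod_eq_of_lt (h i hi)]

lemma capAll_iff {NE S : ℕ} {cap : ℕ → ℕ} {D n : ℕ} (h : capAll NE S cap D n = true) :
    ∀ i < n, (S / 2 ^ (40 * i) % 1099511627776) * (dec NE i / 4) ≤ cap (dec NE i % 4) * D := by
  induction n with
  | zero => intro i hi; omega
  | succ n ih =>
    unfold capAll at h
    rw [Bool.and_eq_true] at h
    intro i hi
    rcases (by omega : i = n ∨ i < n) with rfl | hi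
    · exact Nat.le_of_ble_eq_true h.1
    · exact ih h.2 i hi

/-- The conclusion of a table: the missing weight is at least its value. -/
theorem tab_le (NE : ℕ) (mis : ℕ → ℕ)
    (h : ∀ a b c, val3 a b c = true → 1 ≤ mis a + mis b + mis c)
    (cap : ℕ → ℕ) (D : ℕ) (E : List ℕ) (tab : List Ent) (hE : ∀ e ∈ E, 4 ≤ e)
    (hdec : (List.range E.length).map (dec NE) = E) {S : ℕ} (hS : SS tab = S)
    (hok : okAll NE tab = true) (hin : inAll E.length tab = true)
    (hw : wtot tab < 1099511627776) (hld : capAll NE S cap D E.length = true) :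
    (vl tab : ℝ) ≤ D * (E.map fun e => (mis e : ℝ) * (cap (e % 4) : ℝ) / ((e / 4 : ℕ) : ℝ)).sum := by
  set n := E.length with hn
  have h1 := tab_sum NE mis h n tab hok hin
  have h2 : (vl tab : ℝ) ≤ ∑ e ∈ range n, (mis (dec NE e) : ℝ) * (ld e tab : ℝ) := by
    exact_mod_cast h1
  refine h2.trans ?_
  have h3 : (E.map fun e => (mis e : ℝ) * (cap (e % 4) : ℝ) / ((e / 4 : ℕ) : ℝ)).sum =
      ∑ i ∈ range n, (mis (dec NE i) : ℝ) * (cap (dec NE i % 4) : ℝ) /
        ((dec NE i / 4 : ℕ) : ℝ) := by
    conv_lhs => rw [← hdec]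
    rw [List.map_map, Finset.sum_range, ← List.sum_ofFn]
    congr 1
    rw [← List.map_coe_finRange_eq_range, List.map_map, List.ofFn_eq_map]
    rfl
  rw [h3, Finset.mul_sum]
  refine Finset.sum_le_sum fun i hi => ?_
  rw [mem_range] at hi
  have h4 := capAll_iff hld i hi
  have h5 : S / 2 ^ (40 * i) % 1099511627776 = ld i tab := by
    rw [← hS, SS_eq n tab hin]
    have h6 := digit (fun e => ld e tab) (2 ^ 40) n i hi fun j _ =>
      lt_of_le_of_lt (ld_le_wtot j tab) (by norm_num; exact hw)
    have h7 : ∑ e ∈ range n, ld e tab * 2 ^ (40 * e) = ∑ e ∈ range n, ld e tab * (2 ^ 40) ^ e := by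
      refine Finset.sum_congr rfl fun e _ => ?_
      rw [← pow_mul]
    have h8 : (2 : ℕ) ^ (40 * i) = (2 ^ 40) ^ i := by rw [← pow_mul]
    rw [h7, h8]
    exact h6
  rw [h5] at h4
  have h9 : dec NE i ∈ E := by
    rw [← hdec]
    exact List.mem_map.2 ⟨i, List.mem_range.2 hi, rfl⟩
  have h10 : 0 < dec NE i / 4 := Nat.div_pos (hE _ h9) (by norm_num)
  have h10' : (0 : ℝ) < ((dec NE i / 4 : ℕ) : ℝ) := by exact_mod_cast h10
  have h11 : (ld i tab : ℝ) * ((dec NE i / 4 : ℕ) : ℝ) ≤ (cap (dec NE i % 4) : ℝ) * D := by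
    exact_mod_cast h4
  have h12 : (ld i tab : ℝ) ≤ (cap (dec NE i % 4) : ℝ) * D / ((dec NE i / 4 : ℕ) : ℝ) := by
    rw [le_div_iff₀ h10']
    exact h11
  calc (mis (dec NE i) : ℝ) * (ld i tab : ℝ) ≤
      mis (dec NE i) * ((cap (dec NE i % 4) : ℝ) * D / ((dec NE i / 4 : ℕ) : ℝ)) :=
        mul_le_mul_of_nonneg_left h12 (by positivity)
    _ = D * (mis (dec NE i) * (cap (dec NE i % 4) : ℝ) / ((dec NE i / 4 : ℕ) : ℝ)) := by ring

end Pool.Agent.H561.GPD
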