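import Pool.Agent.H561.GPD.Data1
import Pool.Agent.H561.GPD.Data2

/-!
# The two tables pass the checks
-/

set_option autoImplicit false

namespace Pool.Agent.H561.GPD

/-- codes of the level zero -/
def E1 : List ℕ := C.map (fun n => 4 * n)

/-- codes of the three levels -/
def E2 : List ℕ := C.map (fun n => 4 * n) ++ (C.map (fun n => 4 * n + 1) ++
  (C.filter (fun n => n.ble 1600)).map (fun n => 4 * n + 2))

/-- capacities of the first table -/
def cap1 (_ : ℕ) : ℕ := 1

/-- capacities of the second table -/
def cap2 (l : ℕ) : ℕ := bif l.beq 0 then 12 else bif l.beq 1 then 3 else 1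

lemma len1 : E1.length = 225 := by decide +kernel

lemma len2 : E2.length = 551 := by decide +kernel

lemma dec1 : (List.range E1.length).map (dec NE1) = E1 := by decide +kernel

lemma dec2 : (List.range E2.length).map (dec NE2) = E2 := by decide +kernel

lemma ok1 : okAll NE1 tab1 = true := by decide +kernel

lemma in1 : inAll E1.length tab1 = true := by decide +kernel

lemma w1 : wtot tab1 < 1099511627776 := by decide +kernel

lemma ss1 : SS tab1 = S1 := by decide +kernel

lemma ld1 : capAll NE1 S1 cap1 10000000 E1.length = true := by decide +kernel

lemma vl1 : vl tab1 = 9197952 := by decide +kernel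

lemma ok2 : okAll NE2 tab2 = true := by decide +kernel

lemma in2 : inAll E2.length tab2 = true := by decide +kernel

lemma w2 : wtot tab2 < 1099511627776 := by decide +kernel

lemma ss2 : SS tab2 = S2 := by decide +kernel

lemma ld2 : capAll NE2 S2 cap2 10000000 E2.length = true := by decide +kernel

lemma vl2 : vl tab2 = 174952196 := by decide +kernel

end Pool.Agent.H561.GPD
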