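import Pool.Agent.H413R3.KGUpper
import Pool.Agent.H561.GPD.Cert

/-!
# Missing weights of the fibres of a set without geometric progressions
-/

set_option autoImplicit false

open Finset

namespace Pool.Agent.H561.GPD

open Pool.Agent.H413R3 (KG.GPF)

/-- a set without three-term geometric progressions, in terms of three elements -/
lemma gpf3 {T : Set ℕ} (hT : KG.GPF 3 T) {a b c : ℕ} (ha : a ∈ T) (hb : b ∈ T) (hc : c ∈ T)
    (h : b ^ 2 = a * c) : a = b := by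
  have := hT (fun i => if i = 0 then a else if i = 1 then b else c) (by
    intro i hi
    rcases (by omega : i = 0 ∨ i = 1 ∨ i = 2) with rfl | rfl | rfl
    · exact ha
    · exact hb
    · exact hc) (by
    intro i hi
    have : i = 0 := by omega
    subst this
    exact h)
  exact this

lemma gpf3_of {T : Set ℕ} (h : ∀ a ∈ T, ∀ b ∈ T, ∀ c ∈ T, b ^ 2 = a * c → a = b) :
    KG.GPF 3 T := by
  intro f hf hr
  exact h _ (hf 0 (by norm_num)) _ (hf 1 (by norm_num)) _ (hf 2 (by norm_num))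
    (hr 0 (by norm_num))

open Classical in
/-- indicator of the missing codes -/
noncomputable def mis (pres : ℕ → Prop) (a : ℕ) : ℕ := if pres a then 0 else 1

lemma mis_zero {pres : ℕ → Prop} {a : ℕ} : mis pres a = 0 ↔ pres a := by
  unfold mis
  by_cases h : pres a <;> simp [h]

lemma mis_le (pres : ℕ → Prop) (a : ℕ) : mis pres a ≤ 1 := by
  unfold mis
  by_cases h : pres a <;> simp [h]

lemma mis_val {pres : ℕ → Prop}
    (H : ∀ u m v, okT u m v = true → pres u → pres m → pres v → False) (a b c : ℕ)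
    (h : val3 a b c = true) : 1 ≤ mis pres a + mis pres b + mis pres c := by
  by_contra hlt
  have ha : pres a := mis_zero.1 (by omega)
  have hb : pres b := mis_zero.1 (by omega)
  have hc : pres c := mis_zero.1 (by omega)
  unfold val3 at h
  rw [Bool.or_eq_true, Bool.or_eq_true] at h
  rcases h with (h | h) | h
  · exact H _ _ _ h ha hb hc
  · exact H _ _ _ h hb ha hc
  · exact H _ _ _ h ha hc hb

lemma beq_iff (a b : ℕ) : a.beq b = true ↔ a = b := by
  constructor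
  · exact Nat.eq_of_beq_eq_true
  · rintro rfl
    exact Nat.beq_refl a

lemma okT_iff {u m v : ℕ} (h : okT u m v = true) : (u / 4) * (v / 4) = (m / 4) * (m / 4) ∧
    ((u % 4 = m % 4 ∧ m % 4 = v % 4 ∧ u / 4 ≠ m / 4) ∨
      (m % 4 = 1 ∧ ((u % 4 = 0 ∧ v % 4 = 2) ∨ (u % 4 = 2 ∧ v % 4 = 0)))) := by
  unfold okT at h
  simp only [Bool.and_eq_true, Bool.or_eq_true, beq_iff, Bool.not_eq_true', Bool.eq_false_iff,
    ne_eq] at h
  obtain ⟨h1, h2⟩ := h
  refine ⟨h1, ?_⟩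
  rcases h2 with ⟨⟨h3, h4⟩, h5⟩ | h3
  · exact Or.inl ⟨h3, h4, h5⟩
  · exact Or.inr h3

/-- one fibre -/
lemma pres_one {T : Set ℕ} (hT : KG.GPF 3 T) {s : ℕ} (hs : 0 < s) :
    ∀ u m v, okT u m v = true → (u % 4 = 0 ∧ u / 4 * s ∈ T) → (m % 4 = 0 ∧ m / 4 * s ∈ T) →
      (v % 4 = 0 ∧ v / 4 * s ∈ T) → False := by
  rintro u m v h ⟨hu, hu'⟩ ⟨hm, hm'⟩ ⟨hv, hv'⟩
  obtain ⟨h1, h2⟩ := okT_iff h
  rcases h2 with ⟨_, _, h3⟩ | ⟨h3, _⟩
  · have := gpf3 hT hu' hm' hv' (by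
      calc (m / 4 * s) ^ 2 = (m / 4 * (m / 4)) * s ^ 2 := by ring
        _ = (u / 4 * (v / 4)) * s ^ 2 := by rw [h1]
        _ = u / 4 * s * (v / 4 * s) := by ring)
    exact h3 (Nat.eq_of_mul_eq_mul_right hs this)
  · omega

/-- multipliers of the three levels -/
def rr (s p : ℕ) (l : ℕ) : ℕ := if l = 0 then s else if l = 1 then s * p else s * p ^ 2

lemma rr_pos {s p : ℕ} (hs : 0 < s) (hp : 0 < p) (l : ℕ) : 0 < rr s p l := by
  unfold rr
  split_ifs <;> positivity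

/-- three fibres -/
lemma pres_three {T : Set ℕ} (hT : KG.GPF 3 T) {s p : ℕ} (hs : 0 < s) (hp : 0 < p) :
    ∀ u m v, okT u m v = true → (¬ p ∣ u / 4 ∧ u / 4 * rr s p (u % 4) ∈ T) →
      (¬ p ∣ m / 4 ∧ m / 4 * rr s p (m % 4) ∈ T) →
      (¬ p ∣ v / 4 ∧ v / 4 * rr s p (v % 4) ∈ T) → False := by
  rintro u m v h ⟨hu, hu'⟩ ⟨hm, hm'⟩ ⟨hv, hv'⟩
  obtain ⟨h1, h2⟩ := okT_iff h
  rcases h2 with ⟨e1, e2, h3⟩ | ⟨h3, ⟨h4, h5⟩ | ⟨h4, h5⟩⟩
  · rw [e1] at hu'
    rw [← e2] at hv'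
    have hpos := rr_pos hs hp (m % 4)
    have := gpf3 hT hu' hm' hv' (by
      calc (m / 4 * rr s p (m % 4)) ^ 2 = (m / 4 * (m / 4)) * rr s p (m % 4) ^ 2 := by ring
        _ = (u / 4 * (v / 4)) * rr s p (m % 4) ^ 2 := by rw [h1]
        _ = u / 4 * rr s p (m % 4) * (v / 4 * rr s p (m % 4)) := by ring)
    exact h3 (Nat.eq_of_mul_eq_mul_right hpos this)
  · rw [h4] at hu'
    rw [h3] at hm'
    rw [h5] at hv'
    have r0 : rr s p 0 = s := by simp [rr]
    have r1 : rr s p 1 = s * p := by simp [rr]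
    have r2 : rr s p 2 = s * p ^ 2 := by simp [rr]
    rw [r0] at hu'
    rw [r1] at hm'
    rw [r2] at hv'
    have h6 := gpf3 hT hu' hm' hv' (by
      calc (m / 4 * (s * p)) ^ 2 = (m / 4 * (m / 4)) * (s * p) ^ 2 := by ring
        _ = (u / 4 * (v / 4)) * (s * p) ^ 2 := by rw [h1]
        _ = u / 4 * s * (v / 4 * (s * p ^ 2)) := by ring)
    have h7 : u / 4 * s = (m / 4 * p) * s := by rw [h6]; ring
    have h8 := Nat.eq_of_mul_eq_mul_right hs h7
    exact hu ⟨m / 4, by rw [h8]; ring⟩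
  · rw [h4] at hu'
    rw [h3] at hm'
    rw [h5] at hv'
    have r0 : rr s p 0 = s := by simp [rr]
    have r1 : rr s p 1 = s * p := by simp [rr]
    have r2 : rr s p 2 = s * p ^ 2 := by simp [rr]
    rw [r2] at hu'
    rw [r1] at hm'
    rw [r0] at hv'
    have h6 := gpf3 hT hv' hm' hu' (by
      calc (m / 4 * (s * p)) ^ 2 = (m / 4 * (m / 4)) * (s * p) ^ 2 := by ring
        _ = (u / 4 * (v / 4)) * (s * p) ^ 2 := by rw [h1]
        _ = v / 4 * s * (u / 4 * (s * p ^ 2)) := by ring)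
    have h7 : v / 4 * s = (m / 4 * p) * s := by rw [h6]; ring
    have h8 := Nat.eq_of_mul_eq_mul_right hs h7
    exact hv ⟨m / 4, by rw [h8]; ring⟩

end Pool.Agent.H561.GPD
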