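import Pool.Agent.H561.GPD.World

/-!
# Distribution of the loads over the squarefree numbers
-/

set_option autoImplicit false

open Finset

namespace Pool.Agent.H561.GPD

attribute [local irreducible] C

open Pool.Agent.H413R3
open Pool.Agent.H413R3.KG (GPF W P Rough mem_smooth_iff)

/-- the primes from seven to `K` -/
def QQ (K : ℕ) : Finset ℕ := (Nat.primesBelow K).filter (7 ≤ ·)

lemma mem_QQ {K p : ℕ} : p ∈ QQ K ↔ p.Prime ∧ 7 ≤ p ∧ p < K := by
  unfold QQ
  rw [Finset.mem_filter, Nat.mem_primesBelow]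
  tauto

/-- product of the elements -/
def Np (s : Finset ℕ) : ℕ := ∏ p ∈ s, p

/-- reciprocal of the product -/
noncomputable def ww (s : Finset ℕ) : ℝ := ∏ p ∈ s, (p : ℝ)⁻¹

/-- sum of the reciprocals -/
noncomputable def hh (s : Finset ℕ) : ℝ := ∑ p ∈ s, (p : ℝ)⁻¹

/-- sum of the squares of the reciprocals of the other primes -/
noncomputable def sg (K : ℕ) (s : Finset ℕ) : ℝ := ∑ p ∈ QQ K \ s, ((p : ℝ)⁻¹) ^ 2

/-- the amount which is used at `s` -/
noncomputable def uu (K : ℕ) (s : Finset ℕ) : ℝ := min (hh s) ((1 - 12 * sg K s) / 3)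

lemma ww_pos {K : ℕ} {s : Finset ℕ} (hs : s ⊆ QQ K) : 0 < ww s := by
  unfold ww
  apply Finset.prod_pos
  intro p hp
  have := (mem_QQ.1 (hs hp)).2.1
  positivity

lemma Np_pos {K : ℕ} {s : Finset ℕ} (hs : s ⊆ QQ K) : 0 < Np s := by
  unfold Np
  apply Finset.prod_pos
  intro p hp
  have := (mem_QQ.1 (hs hp)).2.1
  omega

lemma Np_inv (s : Finset ℕ) : ((Np s : ℕ) : ℝ)⁻¹ = ww s := by
  unfold Np ww
  push_cast
  rw [Finset.prod_inv_distrib]

/-- index set -/
def II (K : ℕ) : Finset (Σ _ : Finset ℕ, ℕ) := (QQ K).powerset.sigma fun s => insert 1 s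

/-- the numbers -/
def ph (x : Σ _ : Finset ℕ, ℕ) : ℕ := Np x.1 * x.2

lemma pf_ph {K : ℕ} {x : Σ _ : Finset ℕ, ℕ} (hx : x ∈ II K) : (ph x).primeFactors = x.1 := by
  obtain ⟨s, k⟩ := x
  unfold II at hx
  rw [Finset.mem_sigma, Finset.mem_powerset, Finset.mem_insert] at hx
  obtain ⟨hs, hk⟩ := hx
  simp only at hs hk ⊢
  have hp : ∀ p ∈ s, p.Prime := fun p hp => (mem_QQ.1 (hs hp)).1
  have h1 : (Np s).primeFactors = s := Nat.primeFactors_prod hp
  unfold ph
  simp only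
  rcases hk with rfl | hk
  · rw [mul_one, h1]
  · rw [Nat.primeFactors_mul (Np_pos hs).ne' (hp k hk).ne_zero, h1, (hp k hk).primeFactors]
    exact Finset.union_eq_left.2 (Finset.singleton_subset_iff.2 hk)

lemma ph_inj {K : ℕ} : Set.InjOn ph (II K : Set (Σ _ : Finset ℕ, ℕ)) := by
  rintro x hx y hy h
  have h1 := pf_ph (Finset.mem_coe.1 hx)
  have h2 := pf_ph (Finset.mem_coe.1 hy)
  have h3 : x.1 = y.1 := by rw [← h1, ← h2, h]
  obtain ⟨s, k⟩ := x
  obtain ⟨t, l⟩ := y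
  simp only at h3
  subst h3
  have hs : s ⊆ QQ K := by
    have := Finset.mem_coe.1 hx
    unfold II at this
    rw [Finset.mem_sigma, Finset.mem_powerset] at this
    exact this.1
  unfold ph at h
  simp only at h
  have := Nat.eq_of_mul_eq_mul_left (Np_pos hs) h
  rw [this]

lemma prime_mem_FQ {K p : ℕ} (hp : p ∈ QQ K) : p ∈ FQ K := by
  obtain ⟨h1, h2, h3⟩ := mem_QQ.1 hp
  refine ⟨?_, ?_⟩
  · rw [mem_smooth_iff]
    refine ⟨h1.ne_zero, fun q hq => ?_⟩
    exact Nat.factorization_eq_zero_of_not_dvd fun hd => by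
      by_cases hq1 : q = 1
      · omega
      · have := Nat.le_of_dvd h1.pos hd
        omega
  · refine ⟨h1.one_le, fun q hq => ?_⟩
    by_cases hqp : q.Prime
    · apply Nat.factorization_eq_zero_of_not_dvd
      intro hd
      have := (Nat.prime_dvd_prime_iff_eq hqp h1).1 hd
      omega
    · exact Nat.factorization_eq_zero_of_not_prime _ hqp

lemma mul_mem_FQ {K a b : ℕ} (ha : a ∈ FQ K) (hb : b ∈ FQ K) : a * b ∈ FQ K := by
  refine ⟨mul_mem_smooth ha.1 hb.1, ?_⟩
  have ha0 : a ≠ 0 := (mem_smooth_iff.1 ha.1).1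
  have hb0 : b ≠ 0 := (mem_smooth_iff.1 hb.1).1
  refine ⟨Nat.one_le_iff_ne_zero.2 (mul_ne_zero ha0 hb0), fun p hp => ?_⟩
  rw [Nat.factorization_mul ha0 hb0, Finsupp.add_apply, ha.2.2 p hp, hb.2.2 p hp]

lemma one_mem_FQ (K : ℕ) : 1 ∈ FQ K := by
  refine ⟨?_, le_rfl, fun p _ => by simp⟩
  rw [mem_smooth_iff]
  exact ⟨one_ne_zero, fun p _ => by simp⟩

lemma Np_mem_FQ {K : ℕ} {s : Finset ℕ} (hs : s ⊆ QQ K) : Np s ∈ FQ K := by
  induction s using Finset.induction_on with
  | empty => exact one_mem_FQ K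
  | insert p s hp ih =>
    unfold Np
    rw [Finset.prod_insert hp]
    exact mul_mem_FQ (prime_mem_FQ (hs (Finset.mem_insert_self p s)))
      (ih fun q hq => hs (Finset.mem_insert_of_mem hq))

lemma ph_mem_FQ {K : ℕ} {x : Σ _ : Finset ℕ, ℕ} (hx : x ∈ II K) : ph x ∈ FQ K := by
  obtain ⟨s, k⟩ := x
  unfold II at hx
  rw [Finset.mem_sigma, Finset.mem_powerset, Finset.mem_insert] at hx
  obtain ⟨hs, hk⟩ := hx
  simp only at hs hk
  refine mul_mem_FQ (Np_mem_FQ hs) ?_
  simp only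
  rcases hk with rfl | hk
  · exact one_mem_FQ K
  · exact prime_mem_FQ (hs hk)

lemma Np_erase {s : Finset ℕ} {p : ℕ} (hp : p ∈ s) : Np (s.erase p) * p = Np s := by
  unfold Np
  exact Finset.prod_erase_mul s (fun p => p) hp

/-- the constant of the second table -/
noncomputable def L1 : ℝ := 174952196 / 10000000 - 16 * L0

lemma ex_three {T : Set ℕ} (hT : GPF 3 T) {K : ℕ} {s : Finset ℕ} (hs : s ⊆ QQ K) {p : ℕ}
    (hp : p ∈ s) :
    L1 ≤ 12 * ex T (Np (s.erase p)) + 3 * ex T (Np s) + ex T (Np s * p) := by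
  obtain ⟨h1, h2, h3⟩ := mem_QQ.1 (hs hp)
  have h4 : s.erase p ⊆ QQ K := (Finset.erase_subset p s).trans hs
  have h5 := miss_three hT (Np_pos h4) h1 h2
  have h6 : Np (s.erase p) * p ^ 2 = Np s * p := by
    rw [pow_two, ← mul_assoc, Np_erase hp]
  rw [h6, Np_erase hp] at h5
  unfold ex L1
  linarith

/-- the combined lower bound for the excesses -/
lemma sum_ex {T : Set ℕ} (hT : GPF 3 T) {K : ℕ} (hσ : 12 * sg K ∅ ≤ 1) :
    L1 * ∑ s ∈ (QQ K).powerset, ww s * uu K s ≤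
      ∑ s ∈ (QQ K).powerset, (ww s * ex T (Np s) +
        ∑ p ∈ s, ww s * (p : ℝ)⁻¹ * ex T (Np s * p)) := by
  classical
  have hex : ∀ s ⊆ QQ K, 0 ≤ ex T (Np s) := fun s hs => ex_nonneg hT (Np_pos hs)
  have hsg : ∀ s, 0 ≤ sg K s := fun s => Finset.sum_nonneg fun p _ => by positivity
  have hsg2 : ∀ s, sg K s ≤ sg K ∅ := fun s => by
    unfold sg
    rw [Finset.sdiff_empty]
    exact Finset.sum_le_sum_of_subset_of_nonneg Finset.sdiff_subset fun p _ _ => by positivity
  have hθ : ∀ s, 0 ≤ (1 - 12 * sg K s) / 3 := fun s => by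
    have := hsg2 s
    linarith
  have hhh : ∀ s, 0 ≤ hh s := fun s => Finset.sum_nonneg fun p _ => by positivity
  have hu0 : ∀ s, 0 ≤ uu K s := fun s => le_min (hhh s) (hθ s)
  have hu1 : ∀ s, uu K s ≤ hh s := fun s => min_le_left _ _
  have hu2 : ∀ s, 3 * uu K s + 12 * sg K s ≤ 1 := fun s => by
    have : uu K s ≤ (1 - 12 * sg K s) / 3 := min_le_right _ _
    linarith
  -- one `s`
  have h1 : ∀ s ∈ (QQ K).powerset, ww s * uu K s * L1 - 3 * ww s * uu K s * ex T (Np s) -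
      12 * ∑ p ∈ s, ww s * (p : ℝ)⁻¹ * ex T (Np (s.erase p)) ≤
      ∑ p ∈ s, ww s * (p : ℝ)⁻¹ * ex T (Np s * p) := by
    intro s hs
    rw [Finset.mem_powerset] at hs
    have hw := ww_pos hs
    set la : ℝ := uu K s / hh s with hla
    have hla0 : 0 ≤ la := div_nonneg (hu0 s) (hhh s)
    have hla1 : la ≤ 1 := div_le_one_of_le₀ (hu1 s) (hhh s)
    have hlah : la * hh s = uu K s := by
      by_cases h : hh s = 0
      · have h2 : uu K s = 0 := le_antisymm (by rw [← h]; exact hu1 s) (hu0 s)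
        rw [h2, h, mul_zero]
      · rw [hla]
        field_simp
    have h2 : ∀ p ∈ s, ww s * (p : ℝ)⁻¹ * (la * (L1 - 3 * ex T (Np s))) -
        12 * (ww s * (p : ℝ)⁻¹ * ex T (Np (s.erase p))) ≤
        ww s * (p : ℝ)⁻¹ * ex T (Np s * p) := by
      intro p hp
      have h3 := ex_three hT hs hp
      have h4 : 0 ≤ ex T (Np (s.erase p)) := hex _ ((Finset.erase_subset p s).trans hs)
      have hpm := mem_QQ.1 (hs hp)
      have h5 : 0 ≤ ex T (Np s * p) := ex_nonneg hT (Nat.mul_pos (Np_pos hs) hpm.1.pos)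
      have h6 : 0 ≤ ww s * (p : ℝ)⁻¹ := by positivity
      have h7 : la * (L1 - 3 * ex T (Np s)) - 12 * ex T (Np (s.erase p)) ≤ ex T (Np s * p) := by
        have h8 : la * (L1 - 3 * ex T (Np s)) ≤
            la * (12 * ex T (Np (s.erase p)) + ex T (Np s * p)) :=
          mul_le_mul_of_nonneg_left (by linarith) hla0
        have h9 : la * (12 * ex T (Np (s.erase p)) + ex T (Np s * p)) ≤
            1 * (12 * ex T (Np (s.erase p)) + ex T (Np s * p)) :=
          mul_le_mul_of_nonneg_right hla1 (by positivity)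
        linarith
      have h10 := mul_le_mul_of_nonneg_left h7 h6
      linarith
    have h3 := Finset.sum_le_sum h2
    rw [Finset.sum_sub_distrib, ← Finset.sum_mul, ← Finset.mul_sum, ← Finset.mul_sum] at h3
    refine le_trans (le_of_eq ?_) h3
    have h4 : ∑ p ∈ s, (p : ℝ)⁻¹ = hh s := rfl
    rw [h4, ← hlah]
    ring
  -- reindexing
  have h2 : ∑ s ∈ (QQ K).powerset, ∑ p ∈ s, ww s * (p : ℝ)⁻¹ * ex T (Np (s.erase p)) =
      ∑ t ∈ (QQ K).powerset, ww t * sg K t * ex T (Np t) := by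
    have h3 : ∀ t ∈ (QQ K).powerset, ww t * sg K t * ex T (Np t) =
        ∑ p ∈ QQ K \ t, ww t * ((p : ℝ)⁻¹) ^ 2 * ex T (Np t) := by
      intro t _
      unfold sg
      rw [Finset.mul_sum, Finset.sum_mul]
    rw [Finset.sum_congr rfl h3, Finset.sum_sigma', Finset.sum_sigma']
    refine Finset.sum_nbij' (fun x => ⟨x.1.erase x.2, x.2⟩) (fun x => ⟨insert x.2 x.1, x.2⟩)
      ?_ ?_ ?_ ?_ ?_
    · rintro ⟨s, p⟩ hx
      simp only [Finset.mem_sigma, Finset.mem_powerset, Finset.mem_sdiff] at hx ⊢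
      exact ⟨(Finset.erase_subset p s).trans hx.1, hx.1 hx.2, Finset.notMem_erase p s⟩
    · rintro ⟨t, p⟩ hx
      simp only [Finset.mem_sigma, Finset.mem_powerset, Finset.mem_sdiff] at hx ⊢
      exact ⟨Finset.insert_subset hx.2.1 hx.1, Finset.mem_insert_self p t⟩
    · rintro ⟨s, p⟩ hx
      simp only [Finset.mem_sigma, Finset.mem_powerset] at hx
      simp only
      rw [Finset.insert_erase hx.2]
    · rintro ⟨t, p⟩ hx
      simp only [Finset.mem_sigma, Finset.mem_powerset, Finset.mem_sdiff] at hx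
      simp only
      rw [Finset.erase_insert hx.2.2]
    · rintro ⟨s, p⟩ hx
      simp only [Finset.mem_sigma, Finset.mem_powerset] at hx
      simp only
      have : ww s = ww (s.erase p) * (p : ℝ)⁻¹ := by
        unfold ww
        rw [Finset.prod_erase_mul s (fun p => (p : ℝ)⁻¹) hx.2]
      rw [this]
      ring
  have h3 := Finset.sum_le_sum h1
  rw [Finset.sum_sub_distrib, Finset.sum_sub_distrib, ← Finset.mul_sum, h2] at h3
  rw [Finset.sum_add_distrib]
  have h4 : 0 ≤ ∑ s ∈ (QQ K).powerset, (ww s * ex T (Np s) - 3 * ww s * uu K s * ex T (Np s) -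
      12 * (ww s * sg K s * ex T (Np s))) := by
    refine Finset.sum_nonneg fun s hs => ?_
    rw [Finset.mem_powerset] at hs
    have h5 : 0 ≤ ww s * ex T (Np s) := mul_nonneg (ww_pos hs).le (hex s hs)
    have h6 := mul_nonneg h5 (sub_nonneg.2 (hu2 s))
    linarith
  rw [Finset.sum_sub_distrib, Finset.sum_sub_distrib, ← Finset.mul_sum] at h4
  have h5 : ∑ s ∈ (QQ K).powerset, ww s * uu K s * L1 =
      L1 * ∑ s ∈ (QQ K).powerset, ww s * uu K s := by
    rw [Finset.mul_sum]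
    exact Finset.sum_congr rfl fun s _ => by ring
  rw [h5] at h3
  linarith

/-- The lower bound for the missing part of a set of smooth numbers without progressions. -/
theorem missing {T : Set ℕ} (hT : GPF 3 T) {K : ℕ} (hK : 7 ≤ K) (hσ : 12 * sg K ∅ ≤ 1) :
    L0 * W (FQ K) + L1 * ∑ s ∈ (QQ K).powerset, ww s * uu K s ≤
      W (Nat.smoothNumbers K \ T) := by
  classical
  have h1 := fibre_sum hT hK ((II K).image ph) (by
    intro r hr
    rw [Finset.mem_image] at hr
    obtain ⟨x, hx, rfl⟩ := hr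
    exact ph_mem_FQ hx)
  rw [Finset.sum_image ph_inj] at h1
  refine le_trans ?_ h1
  have h2 : ∑ x ∈ II K, ((ph x : ℕ) : ℝ)⁻¹ * ex T (ph x) =
      ∑ s ∈ (QQ K).powerset, (ww s * ex T (Np s) +
        ∑ p ∈ s, ww s * (p : ℝ)⁻¹ * ex T (Np s * p)) := by
    unfold II
    rw [Finset.sum_sigma]
    refine Finset.sum_congr rfl fun s hs => ?_
    rw [Finset.mem_powerset] at hs
    rw [Finset.sum_insert (fun h => by
      have := (mem_QQ.1 (hs h)).2.1
      omega)]
    unfold ph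
    simp only [mul_one]
    rw [Np_inv]
    congr 1
    refine Finset.sum_congr rfl fun p _ => ?_
    push_cast
    rw [mul_inv, Np_inv]
  rw [h2]
  have := sum_ex hT hσ
  linarith

end Pool.Agent.H561.GPD
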