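import Pool.Agent.H561.GPD.Fib
import Pool.Agent.H561.GPD.Chk

/-!
# The inequalities for the missing weights
-/

set_option autoImplicit false

open Finset

namespace Pool.Agent.H561.GPD

open Pool.Agent.H413R3 (KG.GPF)

open Classical in
/-- missing weight of the fibre over `r` -/
noncomputable def miss (T : Set ℕ) (r : ℕ) : ℝ :=
  (C.map fun c => if c * r ∈ T then 0 else (c : ℝ)⁻¹).sum

lemma C_pos : ∀ c ∈ C, 0 < c := by
  have h : C.all (fun c => Nat.ble 1 c) = true := by decide +kernel
  intro c hc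
  exact Nat.le_of_ble_eq_true (List.all_eq_true.1 h c hc)

lemma C_smooth : ∀ c ∈ C, c ∣ 30 ^ 16 := by
  have h : C.all (fun c => (30 ^ 16 % c).beq 0) = true := by decide +kernel
  intro c hc
  exact Nat.dvd_of_mod_eq_zero (Nat.eq_of_beq_eq_true (List.all_eq_true.1 h c hc))

lemma C_nodup : C.Nodup := by decide +kernel

lemma miss_eq (T : Set ℕ) (r : ℕ) [DecidablePred (· ∈ T)] :
    miss T r = ∑ c ∈ C.toFinset, if c * r ∈ T then 0 else (c : ℝ)⁻¹ := by
  unfold miss
  rw [List.sum_toFinset _ C_nodup]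
  congr 1
  refine List.map_congr_left fun c _ => ?_
  by_cases h : c * r ∈ T <;> simp [h]

lemma E1_ge : ∀ e ∈ E1, 4 ≤ e := by
  intro e he
  unfold E1 at he
  rw [List.mem_map] at he
  obtain ⟨c, hc, rfl⟩ := he
  have := C_pos c hc
  omega

lemma E2_ge : ∀ e ∈ E2, 4 ≤ e := by
  intro e he
  unfold E2 at he
  simp only [List.mem_append, List.mem_map, List.mem_filter] at he
  rcases he with ⟨c, hc, rfl⟩ | ⟨c, hc, rfl⟩ | ⟨c, ⟨hc, _⟩, rfl⟩
  all_goals
    have := C_pos c hc
    omega

lemma miss_ge {T : Set ℕ} (hT : KG.GPF 3 T) {s : ℕ} (hs : 0 < s) :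
    (9197952 : ℝ) / 10000000 ≤ miss T s := by
  classical
  have h := tab_le NE1 (mis fun a => a % 4 = 0 ∧ a / 4 * s ∈ T) (mis_val (pres_one hT hs))
    cap1 10000000 E1 tab1 E1_ge dec1 ss1 ok1 in1 w1 ld1
  rw [vl1] at h
  have h2 : (E1.map fun e => (mis (fun a => a % 4 = 0 ∧ a / 4 * s ∈ T) e : ℝ) *
      (cap1 (e % 4) : ℝ) / ((e / 4 : ℕ) : ℝ)).sum = miss T s := by
    unfold miss E1
    rw [List.map_map]
    congr 1
    refine List.map_congr_left fun c _ => ?_
    have h3 : 4 * c / 4 = c := Nat.mul_div_cancel_left c (by norm_num)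
    have h4 : 4 * c % 4 = 0 := Nat.mul_mod_right 4 c
    simp only [Function.comp, h3, h4, cap1, mis]
    by_cases h5 : c * s ∈ T
    · simp [h5]
    · simp [h5]
  rw [h2] at h
  rw [div_le_iff₀ (by norm_num)]
  push_cast at h
  linarith

lemma filter_sum_le (l : List ℕ) (p : ℕ → Bool) (g : ℕ → ℝ) (hg : ∀ n, 0 ≤ g n) :
    ((l.filter p).map g).sum ≤ (l.map g).sum := by
  induction l with
  | nil => simp
  | cons a l ih =>
    by_cases h : p a = true
    · simp only [List.filter_cons_of_pos h, List.map_cons, List.sum_cons]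
      linarith
    · rw [List.filter_cons_of_neg h]
      simp only [List.map_cons, List.sum_cons]
      have := hg a
      linarith

lemma cap2_0 : cap2 0 = 12 := rfl

lemma cap2_1 : cap2 1 = 3 := rfl

lemma cap2_2 : cap2 2 = 1 := rfl

lemma miss_three {T : Set ℕ} (hT : KG.GPF 3 T) {s p : ℕ} (hs : 0 < s) (hp : p.Prime)
    (hp7 : 7 ≤ p) :
    (174952196 : ℝ) / 10000000 ≤ 12 * miss T s + 3 * miss T (s * p) + miss T (s * p ^ 2) := by
  classical
  have hnd : ∀ c ∈ C, ¬ p ∣ c := by
    intro c hc hd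
    have h1 : p ∣ 30 ^ 16 := hd.trans (C_smooth c hc)
    have h2 : p ∣ 30 := hp.dvd_of_dvd_pow h1
    have h3 : p ≤ 30 := Nat.le_of_dvd (by norm_num) h2
    interval_cases p <;> revert h2 hp <;> decide
  set mi := mis (fun a => ¬ p ∣ a / 4 ∧ a / 4 * rr s p (a % 4) ∈ T) with hmi
  have h := tab_le NE2 mi (mis_val (pres_three hT hs hp.pos)) cap2 10000000 E2 tab2 E2_ge dec2
    ss2 ok2 in2 w2 ld2
  rw [vl2] at h
  set g : ℕ → ℝ := fun e => (mi e : ℝ) * (cap2 (e % 4) : ℝ) / ((e / 4 : ℕ) : ℝ) with hg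
  have hg0 : ∀ n, 0 ≤ g n := fun n => by
    simp only [hg]
    positivity
  have h2 : (E2.map g).sum ≤ 12 * miss T s + 3 * miss T (s * p) + miss T (s * p ^ 2) := by
    unfold E2
    rw [List.map_append, List.map_append, List.sum_append, List.sum_append, List.map_map,
      List.map_map, List.map_map]
    have b1 : (C.map (g ∘ fun n => 4 * n)).sum = 12 * miss T s := by
      unfold miss
      rw [← List.sum_map_mul_left]
      congr 1
      refine List.map_congr_left fun c hc => ?_
      have h4 : 4 * c / 4 = c := Nat.mul_div_cancel_left c (by norm_num)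
      have h5 : 4 * c % 4 = 0 := Nat.mul_mod_right 4 c
      have h6 := hnd c hc
      simp only [Function.comp, hg, hmi, h4, h5, mis, cap2_0, rr]
      by_cases h7 : c * s ∈ T
      · simp [h6, h7]
      · simp [h7, div_eq_mul_inv]
    have b2 : (C.map (g ∘ fun n => 4 * n + 1)).sum = 3 * miss T (s * p) := by
      unfold miss
      rw [← List.sum_map_mul_left]
      congr 1
      refine List.map_congr_left fun c hc => ?_
      have h4 : (4 * c + 1) / 4 = c := by omega
      have h5 : (4 * c + 1) % 4 = 1 := by omega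
      have h6 := hnd c hc
      simp only [Function.comp, hg, hmi, h4, h5, mis, cap2_1, rr]
      by_cases h7 : c * (s * p) ∈ T
      · simp [h6, h7]
      · simp [h7, div_eq_mul_inv]
    have b3 : ((C.filter (fun n => n.ble 1600)).map (g ∘ fun n => 4 * n + 2)).sum ≤
        miss T (s * p ^ 2) := by
      refine (filter_sum_le _ _ _ fun n => hg0 _).trans (le_of_eq ?_)
      unfold miss
      congr 1
      refine List.map_congr_left fun c hc => ?_
      have h4 : (4 * c + 2) / 4 = c := by omega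
      have h5 : (4 * c + 2) % 4 = 2 := by omega
      have h6 := hnd c hc
      simp only [Function.comp, hg, hmi, h4, h5, mis, cap2_2, rr]
      by_cases h7 : c * (s * p ^ 2) ∈ T
      · simp [h6, h7]
      · simp [h7]
    linarith
  rw [div_le_iff₀ (by norm_num)]
  push_cast at h
  linarith

end Pool.Agent.H561.GPD
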