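import Pool.Agent.H561.GPD.Load

/-!
# Lower bound for the sum over the squarefree numbers
-/

set_option autoImplicit false

open Finset

namespace Pool.Agent.H561.GPD

/-- the sum of the squares of the reciprocals -/
noncomputable def s2 (s : Finset ℕ) : ℝ := ∑ p ∈ s, ((p : ℝ)⁻¹) ^ 2

/-- lower bound for the inner sum -/
noncomputable def rval (sig m1 m2 x y : ℝ) : ℝ :=
  if (1 - 12 * (sig - y)) / 3 ≤ x then (1 - 12 * (sig - y)) / 3
  else max x (x + m1 - m2 / (4 * ((1 - 12 * (sig - y)) / 3 - x)))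

/-- sum over the subsets of a list -/
noncomputable def rphi (f : ℝ → ℝ → ℝ) : List ℕ → ℝ → ℝ → ℝ
  | [], x, y => f x y
  | p :: L, x, y => rphi f L x y + (p : ℝ)⁻¹ * rphi f L (x + (p : ℝ)⁻¹) (y + ((p : ℝ)⁻¹) ^ 2)

/-- rational version -/
def qval (sig m1 m2 x y : ℚ) : ℚ :=
  if (1 - 12 * (sig - y)) / 3 ≤ x then (1 - 12 * (sig - y)) / 3
  else max x (x + m1 - m2 / (4 * ((1 - 12 * (sig - y)) / 3 - x)))

/-- rational version -/
def qphi (f : ℚ → ℚ → ℚ) : List ℕ → ℚ → ℚ → ℚ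
  | [], x, y => f x y
  | p :: L, x, y => qphi f L x y + (p : ℚ)⁻¹ * qphi f L (x + (p : ℚ)⁻¹) (y + ((p : ℚ)⁻¹) ^ 2)

lemma qval_cast (sig m1 m2 x y : ℚ) :
    ((qval sig m1 m2 x y : ℚ) : ℝ) = rval sig m1 m2 x y := by
  unfold qval rval
  by_cases h : (1 - 12 * (sig - y)) / 3 ≤ x
  · have h' : (1 - 12 * ((sig : ℝ) - y)) / 3 ≤ x := by exact_mod_cast h
    rw [if_pos h, if_pos h']
    push_cast
    ring
  · have h' : ¬ (1 - 12 * ((sig : ℝ) - y)) / 3 ≤ x := by exact_mod_cast h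
    rw [if_neg h, if_neg h']
    push_cast
    ring_nf

lemma qphi_cast (f : ℚ → ℚ → ℚ) (g : ℝ → ℝ → ℝ) (h : ∀ x y : ℚ, ((f x y : ℚ) : ℝ) = g x y)
    (L : List ℕ) : ∀ x y : ℚ, ((qphi f L x y : ℚ) : ℝ) = rphi g L x y := by
  induction L with
  | nil => intro x y; exact h x y
  | cons p L ih =>
    intro x y
    have h1 : qphi f (p :: L) x y = qphi f L x y +
      (p : ℚ)⁻¹ * qphi f L (x + (p : ℚ)⁻¹) (y + ((p : ℚ)⁻¹) ^ 2) := rfl
    have h2 : rphi g (p :: L) x y = rphi g L x y +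
      (p : ℝ)⁻¹ * rphi g L (x + (p : ℝ)⁻¹) (y + ((p : ℝ)⁻¹) ^ 2) := rfl
    rw [h1, h2]
    push_cast
    rw [ih x y, ih (x + (p : ℚ)⁻¹) (y + ((p : ℚ)⁻¹) ^ 2)]
    push_cast
    ring

/-- sums over the subsets of a list without repetitions -/
lemma sum_rphi (f : ℝ → ℝ → ℝ) (L : List ℕ) (hL : L.Nodup) : ∀ x y : ℝ,
    ∑ a ∈ L.toFinset.powerset, ww a * f (x + hh a) (y + s2 a) = rphi f L x y := by
  induction L with
  | nil =>
    intro x y
    simp [ww, hh, s2, rphi]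
  | cons p L ih =>
    intro x y
    rw [List.nodup_cons] at hL
    have hp : p ∉ L.toFinset := by
      rw [List.mem_toFinset]
      exact hL.1
    have h2 : rphi f (p :: L) x y = rphi f L x y +
      (p : ℝ)⁻¹ * rphi f L (x + (p : ℝ)⁻¹) (y + ((p : ℝ)⁻¹) ^ 2) := rfl
    rw [List.toFinset_cons, Finset.sum_powerset_insert hp, h2, ← ih hL.2, ← ih hL.2,
      Finset.mul_sum]
    congr 1
    refine Finset.sum_congr rfl fun a ha => ?_
    have hpa : p ∉ a := fun h => hp (Finset.mem_powerset.1 ha h)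
    unfold ww hh s2
    rw [Finset.prod_insert hpa, Finset.sum_insert hpa, Finset.sum_insert hpa]
    rw [← add_assoc, ← add_assoc, mul_assoc]

lemma sum_powerset_union {H R : Finset ℕ} (h : Disjoint H R) (g : Finset ℕ → ℝ) :
    ∑ s ∈ (H ∪ R).powerset, g s = ∑ a ∈ H.powerset, ∑ b ∈ R.powerset, g (a ∪ b) := by
  induction R using Finset.induction_on generalizing g with
  | empty => simp
  | insert p R hp ih =>
    have hR : Disjoint H R := Finset.disjoint_of_subset_right (Finset.subset_insert p R) h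
    have hpH : p ∉ H := fun h2 => Finset.disjoint_left.1 h h2 (Finset.mem_insert_self p R)
    have hpu : p ∉ H ∪ R := by
      rw [Finset.mem_union]
      rintro (h2 | h2)
      · exact hpH h2
      · exact hp h2
    rw [Finset.union_insert, Finset.sum_powerset_insert hpu, ih hR, ih hR,
      ← Finset.sum_add_distrib]
    refine Finset.sum_congr rfl fun a _ => ?_
    rw [Finset.sum_powerset_insert hp]
    simp only [Finset.union_insert]

lemma sum_ww (R : Finset ℕ) : ∑ b ∈ R.powerset, ww b = ∏ p ∈ R, (1 + (p : ℝ)⁻¹) := by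
  rw [Finset.prod_one_add]
  rfl

lemma sum_ww_hh (R : Finset ℕ) (hR : ∀ p ∈ R, 0 < p) : ∑ b ∈ R.powerset, ww b * hh b =
    (∏ p ∈ R, (1 + (p : ℝ)⁻¹)) * ∑ p ∈ R, ((p : ℝ)⁻¹) ^ 2 / (1 + (p : ℝ)⁻¹) := by
  induction R using Finset.induction_on with
  | empty => simp [hh]
  | insert p R hp ih =>
    rw [Finset.sum_powerset_insert hp, Finset.prod_insert hp, Finset.sum_insert hp]
    have ih' := ih fun q hq => hR q (Finset.mem_insert_of_mem hq)
    have h1 : ∑ b ∈ R.powerset, ww (insert p b) * hh (insert p b) =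
        (p : ℝ)⁻¹ * ∑ b ∈ R.powerset, ww b * hh b +
          ((p : ℝ)⁻¹) ^ 2 * ∑ b ∈ R.powerset, ww b := by
      rw [Finset.mul_sum, Finset.mul_sum, ← Finset.sum_add_distrib]
      refine Finset.sum_congr rfl fun b hb => ?_
      have hpb : p ∉ b := fun h => hp (Finset.mem_powerset.1 hb h)
      unfold ww hh
      rw [Finset.prod_insert hpb, Finset.sum_insert hpb]
      ring
    rw [h1, ih', sum_ww]
    have hp0 : (0 : ℝ) < p := by exact_mod_cast hR p (Finset.mem_insert_self p R)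
    have h2 : (1 + (p : ℝ)⁻¹) ≠ 0 := by positivity
    field_simp
    ring

lemma sum_ww_hh2 (R : Finset ℕ) (hR : ∀ p ∈ R, 0 < p) : ∑ b ∈ R.powerset, ww b * hh b ^ 2 ≤
    (∏ p ∈ R, (1 + (p : ℝ)⁻¹)) * (∑ p ∈ R, ((p : ℝ)⁻¹) ^ 3 / (1 + (p : ℝ)⁻¹) +
      (∑ p ∈ R, ((p : ℝ)⁻¹) ^ 2 / (1 + (p : ℝ)⁻¹)) ^ 2) := by
  induction R using Finset.induction_on with
  | empty => simp [hh]
  | insert p R hp ih =>
    rw [Finset.sum_powerset_insert hp, Finset.prod_insert hp, Finset.sum_insert hp,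
      Finset.sum_insert hp]
    have hR' : ∀ q ∈ R, 0 < q := fun q hq => hR q (Finset.mem_insert_of_mem hq)
    have ih' := ih hR'
    have h1 : ∑ b ∈ R.powerset, ww (insert p b) * hh (insert p b) ^ 2 =
        (p : ℝ)⁻¹ * ∑ b ∈ R.powerset, ww b * hh b ^ 2 +
          2 * ((p : ℝ)⁻¹) ^ 2 * ∑ b ∈ R.powerset, ww b * hh b +
          ((p : ℝ)⁻¹) ^ 3 * ∑ b ∈ R.powerset, ww b := by
      rw [Finset.mul_sum, Finset.mul_sum, Finset.mul_sum, ← Finset.sum_add_distrib,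
        ← Finset.sum_add_distrib]
      refine Finset.sum_congr rfl fun b hb => ?_
      have hpb : p ∉ b := fun h => hp (Finset.mem_powerset.1 hb h)
      unfold ww hh
      rw [Finset.prod_insert hpb, Finset.sum_insert hpb]
      ring
    rw [h1, sum_ww_hh R hR', sum_ww]
    have hp0 : (0 : ℝ) < p := by exact_mod_cast hR p (Finset.mem_insert_self p R)
    set q : ℝ := (p : ℝ)⁻¹ with hq
    have hq0 : 0 < q := by positivity
    set Z : ℝ := ∏ p ∈ R, (1 + (p : ℝ)⁻¹) with hZ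
    have hZ0 : 0 ≤ Z := Finset.prod_nonneg fun p _ => by positivity
    set m : ℝ := ∑ p ∈ R, ((p : ℝ)⁻¹) ^ 2 / (1 + (p : ℝ)⁻¹) with hm
    set v : ℝ := ∑ p ∈ R, ((p : ℝ)⁻¹) ^ 3 / (1 + (p : ℝ)⁻¹) with hv
    set B : ℝ := ∑ b ∈ R.powerset, ww b * hh b ^ 2 with hB
    have h2 : B + (q * B + 2 * q ^ 2 * (Z * m) + q ^ 3 * Z) ≤
        (1 + q) * (Z * (v + m ^ 2)) + 2 * q ^ 2 * (Z * m) + q ^ 3 * Z := by
      have := mul_le_mul_of_nonneg_left ih' (by positivity : 0 ≤ 1 + q)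
      linarith
    refine h2.trans ?_
    have h3 : (1 + q) * Z * (q ^ 3 / (1 + q) + v + (q ^ 2 / (1 + q) + m) ^ 2) =
        (1 + q) * (Z * (v + m ^ 2)) + 2 * q ^ 2 * (Z * m) + q ^ 3 * Z +
          (1 + q) * Z * (q ^ 2 / (1 + q)) ^ 2 := by
      field_simp
      ring
    rw [h3]
    have h4 : 0 ≤ (1 + q) * Z * (q ^ 2 / (1 + q)) ^ 2 := by positivity
    linarith

/-- the inner sum -/
lemma inner {R : Finset ℕ} (hR : ∀ p ∈ R, 0 < p) {sig m1 m2 : ℝ}
    (h1 : m1 ≤ ∑ p ∈ R, ((p : ℝ)⁻¹) ^ 2 / (1 + (p : ℝ)⁻¹))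
    (h2 : ∑ p ∈ R, ((p : ℝ)⁻¹) ^ 3 / (1 + (p : ℝ)⁻¹) +
      (∑ p ∈ R, ((p : ℝ)⁻¹) ^ 2 / (1 + (p : ℝ)⁻¹)) ^ 2 ≤ m2) (x y : ℝ) :
    (∏ p ∈ R, (1 + (p : ℝ)⁻¹)) * rval sig m1 m2 x y ≤
      ∑ b ∈ R.powerset, ww b * min (x + hh b) ((1 - 12 * (sig - y)) / 3) := by
  set θ : ℝ := (1 - 12 * (sig - y)) / 3 with hθ
  have hhh : ∀ s, 0 ≤ hh s := fun s => Finset.sum_nonneg fun p _ => by positivity
  have hww : ∀ s, 0 ≤ ww s := fun s => Finset.prod_nonneg fun p _ => by positivity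
  set Z : ℝ := ∏ p ∈ R, (1 + (p : ℝ)⁻¹) with hZ
  have hZ0 : 0 ≤ Z := Finset.prod_nonneg fun p _ => by positivity
  have hs0 := sum_ww R
  rw [← hZ] at hs0
  unfold rval
  rw [← hθ]
  by_cases hx : θ ≤ x
  · rw [if_pos hx, ← hs0, Finset.sum_mul]
    refine Finset.sum_le_sum fun b _ => mul_le_mul_of_nonneg_left ?_ (hww b)
    exact le_min (hx.trans (by linarith [hhh b])) le_rfl
  · rw [if_neg hx]
    push Not at hx
    rcases le_total (x + m1 - m2 / (4 * (θ - x))) x with h | h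
    · rw [max_eq_left h, ← hs0, Finset.sum_mul]
      refine Finset.sum_le_sum fun b _ => mul_le_mul_of_nonneg_left ?_ (hww b)
      exact le_min (by linarith [hhh b]) hx.le
    · rw [max_eq_right h]
      have hd : 0 < θ - x := by linarith
      have h3 : ∀ b ∈ R.powerset, ww b * (x + hh b - hh b ^ 2 / (4 * (θ - x))) ≤
          ww b * min (x + hh b) θ := by
        intro b _
        refine mul_le_mul_of_nonneg_left (le_min ?_ ?_) (hww b)
        · have : 0 ≤ hh b ^ 2 / (4 * (θ - x)) := by positivity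
          linarith
        · have h4 : hh b - (θ - x) ≤ hh b ^ 2 / (4 * (θ - x)) := by
            rw [le_div_iff₀ (by positivity)]
            nlinarith [sq_nonneg (hh b - 2 * (θ - x))]
          linarith
      refine le_trans ?_ (Finset.sum_le_sum h3)
      have h4 : ∑ b ∈ R.powerset, ww b * (x + hh b - hh b ^ 2 / (4 * (θ - x))) =
          x * ∑ b ∈ R.powerset, ww b + ∑ b ∈ R.powerset, ww b * hh b -
            (∑ b ∈ R.powerset, ww b * hh b ^ 2) / (4 * (θ - x)) := by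
        rw [Finset.mul_sum, Finset.sum_div, ← Finset.sum_add_distrib, ← Finset.sum_sub_distrib]
        refine Finset.sum_congr rfl fun b _ => ?_
        ring
      rw [h4, hs0, sum_ww_hh R hR, ← hZ]
      have h5 := sum_ww_hh2 R hR
      rw [← hZ] at h5
      have h6 : (∑ b ∈ R.powerset, ww b * hh b ^ 2) / (4 * (θ - x)) ≤ Z * m2 / (4 * (θ - x)) := by
        apply div_le_div_of_nonneg_right _ (by positivity)
        exact h5.trans (mul_le_mul_of_nonneg_left h2 hZ0)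
      have h7 := mul_le_mul_of_nonneg_left h1 hZ0
      have h8 : Z * m2 / (4 * (θ - x)) = Z * (m2 / (4 * (θ - x))) := by ring
      rw [h8] at h6
      nlinarith

/-- The lower bound for the whole sum. -/
theorem sum_uu_ge {K : ℕ} (L : List ℕ) (hL : L.Nodup) (R : Finset ℕ)
    (hQ : QQ K = L.toFinset ∪ R) (hd : Disjoint L.toFinset R) {sig m1 m2 : ℝ}
    (hsig : sg K ∅ ≤ sig)
    (h1 : m1 ≤ ∑ p ∈ R, ((p : ℝ)⁻¹) ^ 2 / (1 + (p : ℝ)⁻¹))
    (h2 : ∑ p ∈ R, ((p : ℝ)⁻¹) ^ 3 / (1 + (p : ℝ)⁻¹) +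
      (∑ p ∈ R, ((p : ℝ)⁻¹) ^ 2 / (1 + (p : ℝ)⁻¹)) ^ 2 ≤ m2) :
    (∏ p ∈ R, (1 + (p : ℝ)⁻¹)) * rphi (rval sig m1 m2) L 0 0 ≤
      ∑ s ∈ (QQ K).powerset, ww s * uu K s := by
  classical
  have hR : ∀ p ∈ R, 0 < p := by
    intro p hp
    have : p ∈ QQ K := by
      rw [hQ]
      exact Finset.mem_union_right _ hp
    have := (mem_QQ.1 this).2.1
    omega
  have hww : ∀ s, 0 ≤ ww s := fun s => Finset.prod_nonneg fun p _ => by positivity
  have e1 : ∑ s ∈ (QQ K).powerset, ww s * uu K s =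
      ∑ a ∈ L.toFinset.powerset, ∑ b ∈ R.powerset, ww (a ∪ b) * uu K (a ∪ b) := by
    rw [hQ]
    exact sum_powerset_union hd fun s => ww s * uu K s
  rw [e1, ← sum_rphi _ L hL, Finset.mul_sum]
  refine Finset.sum_le_sum fun a ha => ?_
  have ha' := Finset.mem_powerset.1 ha
  have h3 := inner hR (sig := sig) h1 h2 (0 + hh a) (0 + s2 a)
  have h4 := mul_le_mul_of_nonneg_left h3 (hww a)
  have h5 : (∏ p ∈ R, (1 + (p : ℝ)⁻¹)) * (ww a * rval sig m1 m2 (0 + hh a) (0 + s2 a)) =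
      ww a * ((∏ p ∈ R, (1 + (p : ℝ)⁻¹)) * rval sig m1 m2 (0 + hh a) (0 + s2 a)) := by ring
  rw [h5]
  refine h4.trans ?_
  rw [Finset.mul_sum]
  refine Finset.sum_le_sum fun b hb => ?_
  have hb' := Finset.mem_powerset.1 hb
  have hab : Disjoint a b := Finset.disjoint_of_subset_left ha' (Finset.disjoint_of_subset_right hb' hd)
  have w1 : ww (a ∪ b) = ww a * ww b := by
    unfold ww
    exact Finset.prod_union hab
  have w2 : hh (a ∪ b) = hh a + hh b := by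
    unfold hh
    exact Finset.sum_union hab
  have w3 : sg K (a ∪ b) ≤ sig - s2 a := by
    have haQ : a ⊆ QQ K := by
      rw [hQ]
      exact ha'.trans Finset.subset_union_left
    have h6 : sg K (a ∪ b) ≤ sg K a := by
      unfold sg
      refine Finset.sum_le_sum_of_subset_of_nonneg ?_ fun p _ _ => by positivity
      exact Finset.sdiff_subset_sdiff le_rfl Finset.subset_union_left
    have h7 : sg K a + s2 a = sg K ∅ := by
      unfold sg s2
      rw [Finset.sdiff_empty]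
      exact Finset.sum_sdiff haQ
    linarith
  rw [w1, mul_assoc]
  refine mul_le_mul_of_nonneg_left (mul_le_mul_of_nonneg_left ?_ (hww b)) (hww a)
  unfold uu
  rw [w2, zero_add, zero_add]
  exact min_le_min le_rfl (by linarith)

end Pool.Agent.H561.GPD
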