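import Pool.Agent.H413R3.KGFree
import Pool.Agent.H561.GPD.Miss

/-!
# The fibres over all numbers without small prime factors
-/

set_option autoImplicit false

open Finset

namespace Pool.Agent.H561.GPD

attribute [local irreducible] C

open Pool.Agent.H413R3
open Pool.Agent.H413R3.KG (GPF W P D Rough Dens sm rg W_mono summable_of_smooth P_pos W_smooth
  W_nonneg dens_D rough_dens dens_unique dens_congr sm_mul rg_mul mem_smooth_iff sm_mem_smooth
  sm_mul_rg rg_mem_rough fac_sm fac_rg)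

/-- smooth numbers prime to thirty -/
def FQ (K : ℕ) : Set ℕ := Nat.smoothNumbers K ∩ Rough 7

lemma FQ_sub (K : ℕ) : FQ K ⊆ Nat.smoothNumbers K := Set.inter_subset_left

lemma one_le_smooth {K n : ℕ} (h : n ∈ Nat.smoothNumbers K) : 1 ≤ n :=
  Nat.one_le_iff_ne_zero.2 (mem_smooth_iff.1 h).1

/-- `P K * W (FQ K) = 4 / 15` -/
lemma PW_FQ {K : ℕ} (hK : 7 ≤ K) : P K * W (FQ K) = P 7 := by
  have h1 : Dens (D K (FQ K) (Rough K)) (P K * W (FQ K)) :=
    dens_D (FQ_sub K) le_rfl (rough_dens K)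
  have h2 : Dens (Rough 7) (P K * W (FQ K)) := by
    refine dens_congr (fun n hn => ?_) h1
    have hn0 : n ≠ 0 := by omega
    constructor
    · rintro ⟨_, ⟨_, h3⟩, h4⟩
      refine ⟨hn, fun p hp => ?_⟩
      have h5 := h3.2 p hp
      rw [fac_sm, if_pos (by omega)] at h5
      exact h5
    · rintro h3
      refine ⟨hn, ⟨sm_mem_smooth K n, KG.sm_pos K n, fun p hp => ?_⟩, rg_mem_rough K hn0⟩
      rw [fac_sm, if_pos (by omega)]
      exact h3.2 p hp
  exact dens_unique h2 (rough_dens 7)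

lemma P7 : P 7 = 4 / 15 := by
  have h : Nat.primesBelow 7 = {2, 3, 5} := by decide
  unfold P
  rw [h]
  norm_num

lemma C_sm : ∀ c ∈ C, c ∈ Nat.smoothNumbers 7 := by
  intro c hc
  rw [mem_smooth_iff]
  have hc0 : c ≠ 0 := (C_pos c hc).ne'
  refine ⟨hc0, fun p hp => ?_⟩
  by_contra hne
  have hpp : p.Prime := by
    by_contra hnp
    exact hne (Nat.factorization_eq_zero_of_not_prime _ hnp)
  have hd : p ∣ c := Nat.dvd_of_factorization_pos hne
  have h1 : p ∣ 30 ^ 16 := hd.trans (C_smooth c hc)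
  have h2 : p ∣ 30 := hpp.dvd_of_dvd_pow h1
  have h3 : p ≤ 30 := Nat.le_of_dvd (by norm_num) h2
  interval_cases p <;> revert h2 hpp <;> decide

/-- the elements of `T` missing in the column of `c` -/
def Ac (T : Set ℕ) (K c : ℕ) : Set ℕ := {r | r ∈ FQ K ∧ c * r ∉ T}

lemma W_image (A : Set ℕ) {c : ℕ} (hc : 0 < c) :
    W ((fun r => c * r) '' A) = (c : ℝ)⁻¹ * W A := by
  unfold W
  have hinj : Function.Injective (fun r : ℕ => c * r) := fun a b h =>
    Nat.eq_of_mul_eq_mul_left hc h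
  have h1 : ∑' r : ℕ, ((fun r => c * r) '' A).indicator (fun t => ((t : ℝ))⁻¹) (c * r) =
      ∑' n : ℕ, ((fun r => c * r) '' A).indicator (fun t => ((t : ℝ))⁻¹) n := by
    refine Function.Injective.tsum_eq (g := fun r : ℕ => c * r) hinj ?_
    intro n hn
    rw [Function.mem_support] at hn
    have : n ∈ (fun r => c * r) '' A := by
      by_contra h
      exact hn (Set.indicator_of_notMem h _)
    obtain ⟨r, _, rfl⟩ := this
    exact ⟨r, rfl⟩
  rw [← h1, ← tsum_mul_left]
  congr 1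
  funext r
  by_cases h : r ∈ A
  · rw [Set.indicator_of_mem (Set.mem_image_of_mem _ h), Set.indicator_of_mem h]
    push_cast
    rw [mul_inv]
  · have h' : (c * r) ∉ (fun r => c * r) '' A := by
      rintro ⟨x, hx, hxr⟩
      have : x = r := hinj hxr
      exact h (this ▸ hx)
    rw [Set.indicator_of_notMem h', Set.indicator_of_notMem h, mul_zero]

lemma mul_mem_smooth {K a b : ℕ} (ha : a ∈ Nat.smoothNumbers K) (hb : b ∈ Nat.smoothNumbers K) :
    a * b ∈ Nat.smoothNumbers K := by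
  rw [mem_smooth_iff] at *
  refine ⟨mul_ne_zero ha.1 hb.1, fun p hp => ?_⟩
  by_contra hne
  rw [Nat.factorization_mul ha.1 hb.1, Finsupp.add_apply] at hne
  by_cases h : a.factorization p = 0
  · exact hne (by rw [h, hb.2 p hp])
  · exact h (ha.2 p hp)

lemma image_sub {T : Set ℕ} {K c : ℕ} (hK : 7 ≤ K) (hc : c ∈ C) :
    (fun r => c * r) '' Ac T K c ⊆ Nat.smoothNumbers K \ T := by
  rintro n ⟨r, ⟨hr, hT⟩, rfl⟩
  refine ⟨mul_mem_smooth ?_ hr.1, hT⟩
  have := C_sm c hc
  rw [mem_smooth_iff] at this ⊢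
  exact ⟨this.1, fun p hp => this.2 p (by omega)⟩

lemma sum_W_le (T : Set ℕ) {K : ℕ} (hK : 7 ≤ K) :
    ∑ c ∈ C.toFinset, (c : ℝ)⁻¹ * W (Ac T K c) ≤ W (Nat.smoothNumbers K \ T) := by
  classical
  have hsub : Nat.smoothNumbers K \ T ⊆ Nat.smoothNumbers K := Set.sdiff_subset
  have h1 : ∑ c ∈ C.toFinset, (c : ℝ)⁻¹ * W (Ac T K c) =
      ∑ c ∈ C.toFinset, W ((fun r => c * r) '' Ac T K c) := by
    refine Finset.sum_congr rfl fun c hc => ?_
    rw [W_image _ (C_pos c (List.mem_toFinset.1 hc))]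
  rw [h1]
  unfold W
  rw [← Summable.tsum_finsetSum]
  · refine Summable.tsum_le_tsum ?_ ?_ (summable_of_smooth hsub)
    · intro n
      by_cases hex : ∃ c ∈ C.toFinset, n ∈ (fun r => c * r) '' Ac T K c
      · obtain ⟨c, hc, hn⟩ := hex
        have hc' := List.mem_toFinset.1 hc
        rw [Finset.sum_eq_single_of_mem c hc]
        · rw [Set.indicator_of_mem hn, Set.indicator_of_mem (image_sub hK hc' hn)]
        · intro b hb hbc
          apply Set.indicator_of_notMem
          intro hn2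
          apply hbc
          obtain ⟨r, hr, hrn⟩ := hn
          obtain ⟨r2, hr2, hrn2⟩ := hn2
          have e1 := sm_mul (C_sm c hc') hr.1.2
          have e2 := sm_mul (C_sm b (List.mem_toFinset.1 hb)) hr2.1.2
          simp only at hrn hrn2
          rw [hrn] at e1
          rw [hrn2] at e2
          exact e2.symm.trans e1
      · push Not at hex
        rw [Finset.sum_eq_zero fun c hc => Set.indicator_of_notMem (hex c hc) _]
        exact Set.indicator_nonneg (fun _ _ => by positivity) _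
    · refine summable_sum fun c hc => ?_
      exact summable_of_smooth ((image_sub hK (List.mem_toFinset.1 hc)).trans hsub)
  · intro c hc
    exact summable_of_smooth ((image_sub hK (List.mem_toFinset.1 hc)).trans hsub)

/-- the constant of the first table -/
noncomputable def L0 : ℝ := 9197952 / 10000000

/-- the excess of the fibre over `r` -/
noncomputable def ex (T : Set ℕ) (r : ℕ) : ℝ := miss T r - L0

lemma ex_nonneg {T : Set ℕ} (hT : GPF 3 T) {s : ℕ} (hs : 0 < s) : 0 ≤ ex T s := by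
  have := miss_ge hT hs
  unfold ex L0
  linarith

lemma fibre_sum {T : Set ℕ} (hT : GPF 3 T) {K : ℕ} (hK : 7 ≤ K) (F : Finset ℕ)
    (hF : ∀ r ∈ F, r ∈ FQ K) :
    L0 * W (FQ K) + ∑ r ∈ F, (r : ℝ)⁻¹ * ex T r ≤ W (Nat.smoothNumbers K \ T) := by
  classical
  refine le_trans ?_ (sum_W_le T hK)
  have hpt : ∀ r : ℕ, ∑ c ∈ C.toFinset, (c : ℝ)⁻¹ *
      (Ac T K c).indicator (fun t => ((t : ℝ))⁻¹) r =
      (FQ K).indicator (fun t => ((t : ℝ))⁻¹) r * miss T r := by
    intro r
    rw [miss_eq, Finset.mul_sum]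
    refine Finset.sum_congr rfl fun c _ => ?_
    by_cases h1 : r ∈ FQ K
    · by_cases h2 : c * r ∈ T
      · rw [Set.indicator_of_notMem (fun h => h.2 h2), if_pos h2]
        ring
      · rw [Set.indicator_of_mem (show r ∈ Ac T K c from ⟨h1, h2⟩), if_neg h2,
          Set.indicator_of_mem h1]
        ring
    · rw [Set.indicator_of_notMem (fun h => h1 h.1), Set.indicator_of_notMem h1]
      ring
  have hAc : ∀ c, Ac T K c ⊆ Nat.smoothNumbers K := fun c r hr => FQ_sub K hr.1
  have hsum : ∑ c ∈ C.toFinset, (c : ℝ)⁻¹ * W (Ac T K c) =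
      ∑' r : ℕ, (FQ K).indicator (fun t => ((t : ℝ))⁻¹) r * miss T r := by
    simp_rw [← hpt]
    rw [Summable.tsum_finsetSum]
    · refine Finset.sum_congr rfl fun c _ => ?_
      unfold W
      rw [tsum_mul_left]
    · intro c _
      exact (summable_of_smooth (hAc c)).mul_left _
  rw [hsum]
  have hsm : Summable fun r : ℕ => (FQ K).indicator (fun t => ((t : ℝ))⁻¹) r * miss T r := by
    simp_rw [← hpt]
    exact summable_sum fun c _ => (summable_of_smooth (hAc c)).mul_left _
  have hs0 := summable_of_smooth (FQ_sub K)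
  have hs1 : Summable fun r : ℕ => (FQ K).indicator (fun t => ((t : ℝ))⁻¹) r * ex T r := by
    have : (fun r : ℕ => (FQ K).indicator (fun t => ((t : ℝ))⁻¹) r * ex T r) = fun r : ℕ =>
        (FQ K).indicator (fun t => ((t : ℝ))⁻¹) r * miss T r -
          (FQ K).indicator (fun t => ((t : ℝ))⁻¹) r * L0 := by
      funext r
      unfold ex
      ring
    rw [this]
    exact hsm.sub (hs0.mul_right _)
  have h2 : ∑' r : ℕ, (FQ K).indicator (fun t => ((t : ℝ))⁻¹) r * miss T r =
      L0 * W (FQ K) + ∑' r : ℕ, (FQ K).indicator (fun t => ((t : ℝ))⁻¹) r * ex T r := by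
    unfold W
    rw [← tsum_mul_left, ← Summable.tsum_add (hs0.mul_left _) hs1]
    congr 1
    funext r
    unfold ex
    ring
  rw [h2]
  have h3 : ∑ r ∈ F, (r : ℝ)⁻¹ * ex T r ≤
      ∑' r : ℕ, (FQ K).indicator (fun t => ((t : ℝ))⁻¹) r * ex T r := by
    have h4 : ∑ r ∈ F, (r : ℝ)⁻¹ * ex T r =
        ∑ r ∈ F, (FQ K).indicator (fun t => ((t : ℝ))⁻¹) r * ex T r :=
      Finset.sum_congr rfl fun r hr => by rw [Set.indicator_of_mem (hF r hr)]
    rw [h4]
    refine hs1.sum_le_tsum F fun r _ => ?_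
    by_cases h : r ∈ FQ K
    · rw [Set.indicator_of_mem h]
      exact mul_nonneg (by positivity) (ex_nonneg hT (one_le_smooth h.1))
    · rw [Set.indicator_of_notMem h, zero_mul]
  linarith

end Pool.Agent.H561.GPD
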